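import Pool.Agent.H53.DE.EKer

/-!
# DE: kernel forms of `EFE`, `BN`, `BP`
-/

set_option autoImplicit false
open Real Set MeasureTheory Filter Topology

namespace Pool.Agent.H53.DE
open Pool.Agent.H45.FL Pool.Agent.H51.DG Pool.Agent.H45.DY Pool.Agent.H90.DC Pool.Agent.H90.DE

/-- kernel form of the derivative of the energy -/
noncomputable def EFEk (W : ℝ → ℝ) : ℝ :=
  1 / (2 * π) * ((∫ z in Sq1, bF W z.1 * bF W z.2 * ct (z.1 + z.2) ^ 3) -
    (∫ z in Sq1, bR W z.1 * bR W z.2 * ct (z.1 + z.2) ^ 3) +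
    2 * ∫ z in Sq1, bF W z.1 * bR W z.2 * ct (z.1 - z.2) ^ 3)

/-- kernel of the budget, `b b` part -/
noncomputable def kBb (x y : ℝ) : ℝ := kJb x y - 3 / (8 * π) * ct (x + y)

/-- kernel of the budget, `b a` part (`x` the `b`-variable) -/
noncomputable def kBn (x y : ℝ) : ℝ := kJn x y + 3 / (8 * π) * (ct (x + y) - ct (x - y))

theorem ct_le_csk (z : ℝ) : |ct z| ≤ |csk z| := by
  unfold ct csk
  by_cases h : Real.sin (z / 2) = 0
  · rw [h]
    simp
  · rw [abs_div, abs_div, abs_pow]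
    have h1 : 0 < |Real.sin (z / 2)| := abs_pos.2 h
    have h2 := Real.abs_sin_le_one (z / 2)
    refine div_le_div_of_nonneg_left (abs_nonneg _) (by positivity) ?_
    calc |Real.sin (z / 2)| ^ 3 = |Real.sin (z / 2)| * |Real.sin (z / 2)| ^ 2 := by ring
      _ ≤ |Real.sin (z / 2)| * 1 := by
          refine mul_le_mul_of_nonneg_left ?_ h1.le
          exact pow_le_one₀ h1.le h2
      _ = |Real.sin (z / 2)| := mul_one _

theorem bF_meas {W : ℝ → ℝ} {K : ℝ} (h : Lip K W) : Measurable (bF W) := by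
  have := h.continuous.measurable
  unfold bF
  fun_prop

theorem bR_meas {W : ℝ → ℝ} {K : ℝ} (h : Lip K W) : Measurable (bR W) := by
  have := h.continuous.measurable
  unfold bR
  fun_prop

theorem ct_of_csk {f g : ℝ → ℝ} (hf : Measurable f) (hg : Measurable g) {s : ℝ × ℝ → ℝ}
    (hs : Measurable s) (h : IntegrableOn (fun z : ℝ × ℝ => f z.1 * g z.2 * csk (s z)) Sq1) :
    IntegrableOn (fun z : ℝ × ℝ => f z.1 * g z.2 * ct (s z)) Sq1 := by
  have m1 : Measurable (fun z : ℝ × ℝ => f z.1 * g z.2 * ct (s z)) :=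
    ((hf.comp measurable_fst).mul (hg.comp measurable_snd)).mul (SC_ct_meas.comp hs)
  refine Integrable.mono h m1.aestronglyMeasurable (Filter.Eventually.of_forall fun z => ?_)
  rw [Real.norm_eq_abs, Real.norm_eq_abs, abs_mul, abs_mul _ (csk (s z))]
  exact mul_le_mul_of_nonneg_left (ct_le_csk _) (abs_nonneg _)

theorem ct3_of_csk {f g : ℝ → ℝ} (hf : Measurable f) (hg : Measurable g) {s : ℝ × ℝ → ℝ}
    (hs : Measurable s) (h : IntegrableOn (fun z : ℝ × ℝ => f z.1 * g z.2 * csk (s z)) Sq1) :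
    IntegrableOn (fun z : ℝ × ℝ => f z.1 * g z.2 * ct (s z) ^ 3) Sq1 ∧
    ∫ z in Sq1, f z.1 * g z.2 * ct (s z) ^ 3 =
      (∫ z in Sq1, f z.1 * g z.2 * csk (s z)) - ∫ z in Sq1, f z.1 * g z.2 * ct (s z) := by
  have h1 := ct_of_csk hf hg hs h
  have e : ∀ z : ℝ × ℝ, f z.1 * g z.2 * csk (s z) - f z.1 * g z.2 * ct (s z) =
      f z.1 * g z.2 * ct (s z) ^ 3 := by
    intro z
    rw [← csk_sub_ct]
    ring
  constructor
  · exact (h.sub h1).congr (Filter.Eventually.of_forall e)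
  · rw [← integral_sub h h1]
    exact integral_congr_ae (Filter.Eventually.of_forall fun z => (e z).symm)

/-- integrability of the kernels of degree one -/
theorem ct_pieces {W : ℝ → ℝ} {l K : ℝ} (h : OddE W l) (hK : Lip K W) :
    IntegrableOn (fun z : ℝ × ℝ => bF W z.1 * bR W z.2 * ct (z.1 - z.2)) Sq1 ∧
    IntegrableOn (fun z : ℝ × ℝ => bF W z.1 * bR W z.2 * ct (z.1 + z.2)) Sq1 ∧
    IntegrableOn (fun z : ℝ × ℝ => bR W z.1 * bR W z.2 * ct (z.1 + z.2)) Sq1 ∧
    IntegrableOn (fun z : ℝ × ℝ => bF W z.1 * bF W z.2 * ct (z.1 + z.2)) Sq1 := by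
  obtain ⟨k1, k2, k3, k4⟩ := E_pieces h hK
  have mF := bF_meas hK
  have mR := bR_meas hK
  exact ⟨ct_of_csk mF mR (by fun_prop) k1, ct_of_csk mF mR (by fun_prop) k2,
    ct_of_csk mR mR (by fun_prop) k3, ct_of_csk mF mF (by fun_prop) k4⟩

/-- integrability of the parts of `EFEk` -/
theorem EFEk_int {W : ℝ → ℝ} {l K : ℝ} (h : OddE W l) (hK : Lip K W) :
    IntegrableOn (fun z : ℝ × ℝ => bF W z.1 * bF W z.2 * ct (z.1 + z.2) ^ 3) Sq1 ∧
    IntegrableOn (fun z : ℝ × ℝ => bR W z.1 * bR W z.2 * ct (z.1 + z.2) ^ 3) Sq1 ∧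
    IntegrableOn (fun z : ℝ × ℝ => bF W z.1 * bR W z.2 * ct (z.1 - z.2) ^ 3) Sq1 := by
  obtain ⟨k1, k2, k3, k4⟩ := E_pieces h hK
  have mF := bF_meas hK
  have mR := bR_meas hK
  exact ⟨(ct3_of_csk mF mF (by fun_prop) k4).1, (ct3_of_csk mR mR (by fun_prop) k3).1,
    (ct3_of_csk mF mR (by fun_prop) k1).1⟩

/-- the formula (M) for the arc `(0,l)` -/
def MassNF (W : ℝ → ℝ) (l : ℝ) : Prop :=
  ∫ x in (0:ℝ)..l, W x * HT W x = 1 / (2 * π) *
    (-(∫ z in Sq1, bR W z.1 * bR W z.2 * ct (z.1 + z.2)) +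
      ∫ z in Sq1, bR W z.1 * bF W z.2 * (ct (z.1 + z.2) - ct (z.1 - z.2)))

theorem EFE_kernel0 {W : ℝ → ℝ} {l : ℝ} (h : OddE W l) (hs : ContDiff ℝ 2 W)
    (hM : MassNF W l) (hM' : MassNF (sft W) (π - l)) : EFE W l = EFEk W := by
  obtain ⟨K, hK⟩ := lip_of_contDiff h.per (hs.of_le (by norm_num))
  obtain ⟨k1, k2, k3, k4⟩ := E_pieces h hK
  obtain ⟨j1, j2, j3, j4⟩ := ct_pieces h hK
  have mF := bF_meas hK
  have mR := bR_meas hK
  have a1 := (ct3_of_csk mF mF (s := fun z => z.1 + z.2) (by fun_prop) k4).2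
  have a2 := (ct3_of_csk mR mR (s := fun z => z.1 + z.2) (by fun_prop) k3).2
  have a3 := (ct3_of_csk mF mR (s := fun z => z.1 - z.2) (by fun_prop) k1).2
  have e1 := EF_left h hs
  have e2 := EF_right h hs
  -- the mass terms
  have ctc : ∀ x y, ct (y - x) = -ct (x - y) := by
    intro x y
    rw [← SC_ct_neg]
    congr 1
    ring
  obtain ⟨i1, s1⟩ := JKer_swap j1
  obtain ⟨i2, s2⟩ := JKer_swap j2
  have m1 : ∫ z in Sq1, bR W z.1 * bF W z.2 * (ct (z.1 + z.2) - ct (z.1 - z.2)) =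
      (∫ z in Sq1, bF W z.1 * bR W z.2 * ct (z.1 + z.2)) +
        ∫ z in Sq1, bF W z.1 * bR W z.2 * ct (z.1 - z.2) := by
    rw [← s1, ← s2, ← integral_add i2 i1]
    refine integral_congr_ae (Filter.Eventually.of_forall fun z => ?_)
    show _ = bF W z.2 * bR W z.1 * ct (z.2 + z.1) + bF W z.2 * bR W z.1 * ct (z.2 - z.1)
    rw [ctc z.1 z.2, add_comm z.2 z.1]
    ring
  have m2 : ∫ z in Sq1, bR (sft W) z.1 * bR (sft W) z.2 * ct (z.1 + z.2) =
      -∫ z in Sq1, bF W z.1 * bF W z.2 * ct (z.1 + z.2) := by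
    rw [← Rpi_integral, ← integral_neg]
    refine integral_congr_ae (Filter.Eventually.of_forall fun z => ?_)
    show bR (sft W) (π - z.1) * bR (sft W) (π - z.2) * ct (π - z.1 + (π - z.2)) = _
    rw [bR_sft h, bR_sft h, show π - z.1 + (π - z.2) = 2 * π - (z.1 + z.2) by ring,
      JKer_ct_sub, sub_sub_cancel, sub_sub_cancel]
    ring
  have m3 : ∫ z in Sq1, bR (sft W) z.1 * bF (sft W) z.2 * (ct (z.1 + z.2) - ct (z.1 - z.2)) =
      -(∫ z in Sq1, bF W z.1 * bR W z.2 * ct (z.1 + z.2)) +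
        ∫ z in Sq1, bF W z.1 * bR W z.2 * ct (z.1 - z.2) := by
    have hn : IntegrableOn (fun z : ℝ × ℝ => -(bF W z.1 * bR W z.2 * ct (z.1 + z.2))) Sq1 := j2.neg
    rw [← Rpi_integral, ← integral_neg, ← integral_add hn j1]
    refine integral_congr_ae (Filter.Eventually.of_forall fun z => ?_)
    show bR (sft W) (π - z.1) * bF (sft W) (π - z.2) *
      (ct (π - z.1 + (π - z.2)) - ct (π - z.1 - (π - z.2))) = _
    rw [bR_sft h, bF_sft h, show π - z.1 + (π - z.2) = 2 * π - (z.1 + z.2) by ring,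
      JKer_ct_sub, sub_sub_cancel, sub_sub_cancel,
      show π - z.1 - (π - z.2) = z.2 - z.1 by ring, ctc z.1 z.2]
    ring
  have c2 : ∀ x, sft W (π - x) * HT (sft W) (π - x) = -(W x * HT W x) := by
    intro x
    rw [sft_apply, HT_sft, OE_HT_refl h, show π - x + π = 2 * π - x by ring, OE_refl h]
    ring
  have e0 : (∫ x in (0:ℝ)..(π - l), sft W x * HT (sft W) x) = -∫ x in l..π, W x * HT W x := by
    have h1 := intervalIntegral.integral_comp_sub_left (a := l) (b := π)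
      (fun x => sft W x * HT (sft W) x) π
    rw [sub_self] at h1
    rw [← h1, ← intervalIntegral.integral_neg]
    exact intervalIntegral.integral_congr fun x _ => c2 x
  unfold MassNF at hM hM'
  rw [m1] at hM
  rw [m2, m3, e0] at hM'
  unfold EFE EFEk
  rw [e1, e2, hM, a1, a2, a3]
  have hM2 : ∫ x in l..π, W x * HT W x = -(1 / (2 * π) *
    (- -(∫ z in Sq1, bF W z.1 * bF W z.2 * ct (z.1 + z.2)) +
    (-(∫ z in Sq1, bF W z.1 * bR W z.2 * ct (z.1 + z.2)) +
        ∫ z in Sq1, bF W z.1 * bR W z.2 * ct (z.1 - z.2)))) := by linarith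
  rw [hM2]
  ring

theorem OE_VanC {W : ℝ → ℝ} {l K : ℝ} (h : OddE W l) (hK : Lip K W) {δ : ℝ} (hδ : 0 < δ)
    (hv : ∀ x, |x| ≤ δ → W x = 0) : VanC (fun x => -W x) l where
  toOddC := OE_negC h
  lip := ⟨K, neg_lip hK⟩
  van := ⟨δ, hδ, fun x hx => by
    show -W x = 0
    rw [hv x hx, neg_zero]⟩

/-- `BN` in terms of the functional of class (C) -/
theorem BN_JF {W : ℝ → ℝ} {l K : ℝ} (h : OddE W l) (hK : Lip K W) {δ : ℝ} (hδ : 0 < δ)
    (hv : ∀ x, |x| ≤ δ → W x = 0) :
    BN W l = JF (fun x => -W x) l + 3 / 4 * ∫ x in (0:ℝ)..l, W x * HT W x := by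
  have hpi := Real.pi_pos
  have hWc := hK.continuous
  have hHc : Continuous (HT W) := continuous_HT hK
  have hUc : Continuous (UU W) := continuous_iff_continuousAt.2 fun x =>
    (hasDerivAt_UU hK x).continuousAt
  have eJ : JF (fun x => -W x) l =
      ∫ x in (0:ℝ)..l, W x * (2 * HT W x * Ph x + UU W x * dPh x) := by
    unfold JF
    refine intervalIntegral.integral_congr fun x _ => ?_
    have u1 : HT (fun x => -W x) x = -HT W x := HTd_neg W x
    have u2 : UU (fun x => -W x) x = -UU W x := by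
      unfold UU
      rw [← intervalIntegral.integral_neg]
      exact intervalIntegral.integral_congr fun y _ => HTd_neg W y
    show -W x * (2 * HT (fun x => -W x) x * Ph x + UU (fun x => -W x) x * dPh x) = _
    rw [u1, u2]
    ring
  rw [eJ]
  have i2 : IntervalIntegrable (fun x => 3 / 4 * (W x * HT W x)) volume 0 l :=
    (continuous_const.mul (hWc.mul hHc)).intervalIntegrable _ _
  have i1 : IntervalIntegrable (fun x => W x * (2 * HT W x * Ph x + UU W x * dPh x))
      volume 0 l := by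
    rcases le_or_gt l δ with hl | hl
    · have h0 : IntervalIntegrable (fun _ : ℝ => (0:ℝ)) volume 0 l :=
        continuous_const.intervalIntegrable _ _
      refine h0.congr ?_
      intro x hx
      rw [uIoc_of_le h.l0.le] at hx
      show (0:ℝ) = W x * _
      rw [hv x (by rw [abs_of_pos hx.1]; exact hx.2.trans hl), zero_mul]
    · have j1 : IntervalIntegrable (fun x => W x * (2 * HT W x * Ph x + UU W x * dPh x))
          volume 0 δ := by
        have h0 : IntervalIntegrable (fun _ : ℝ => (0:ℝ)) volume 0 δ :=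
          continuous_const.intervalIntegrable _ _
        refine h0.congr ?_
        intro x hx
        rw [uIoc_of_le hδ.le] at hx
        show (0:ℝ) = W x * _
        rw [hv x (by rw [abs_of_pos hx.1]; exact hx.2), zero_mul]
      have j2 : IntervalIntegrable (fun x => W x * (2 * HT W x * Ph x + UU W x * dPh x))
          volume δ l := by
        apply ContinuousOn.intervalIntegrable
        rw [uIcc_of_le hl.le]
        have hs : ∀ x ∈ Icc δ l, Real.sin (x / 2) ≠ 0 := by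
          intro x hx
          have := Real.sin_pos_of_pos_of_lt_pi (x := x / 2) (by linarith [hx.1])
            (by linarith [hx.2, h.l1])
          exact this.ne'
        have hct : ContinuousOn ct (Icc δ l) := by
          unfold ct
          exact ContinuousOn.div (by fun_prop) (by fun_prop) hs
        have hPh : ContinuousOn Ph (Icc δ l) := by
          unfold Ph
          fun_prop
        have hdPh : ContinuousOn dPh (Icc δ l) := by
          unfold dPh
          fun_prop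
        exact hWc.continuousOn.mul (((continuousOn_const.mul hHc.continuousOn).mul hPh).add
          (hUc.continuousOn.mul hdPh))
      exact j1.trans j2
  rw [← intervalIntegral.integral_const_mul, ← intervalIntegral.integral_add i1 i2]
  unfold BN
  refine intervalIntegral.integral_congr fun x _ => ?_
  show W x * (2 * HT W x * Pk x + UU W x * dPh x) =
    W x * (2 * HT W x * Ph x + UU W x * dPh x) + 3 / 4 * (W x * HT W x)
  unfold Pk Ph
  ring

theorem BN_kernel0 {W : ℝ → ℝ} {l K : ℝ} (h : OddE W l) (hK : Lip K W) {δ : ℝ} (hδ : 0 < δ)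
    (hv : ∀ x, |x| ≤ δ → W x = 0) (hM : MassNF W l) :
    IntegrableOn (fun z : ℝ × ℝ => bR W z.1 * bR W z.2 * kBb z.1 z.2) Sq1 ∧
    IntegrableOn (fun z : ℝ × ℝ => bR W z.1 * bF W z.2 * kBn z.1 z.2) Sq1 ∧
    BN W l = (∫ z in Sq1, bR W z.1 * bR W z.2 * kBb z.1 z.2) +
      ∫ z in Sq1, bR W z.1 * bF W z.2 * kBn z.1 z.2 := by
  obtain ⟨f1, f2, f3⟩ := JF_kernel (OE_VanC h hK hδ hv)
  rw [bF_neg] at f1
  rw [bF_neg, bR_neg] at f2
  rw [bF_neg, bR_neg] at f3
  obtain ⟨j1, j2, j3, j4⟩ := ct_pieces h hK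
  obtain ⟨i1, s1⟩ := JKer_swap j1
  obtain ⟨i2, s2⟩ := JKer_swap j2
  have ctc : ∀ x y, ct (y - x) = -ct (x - y) := by
    intro x y
    rw [← SC_ct_neg]
    congr 1
    ring
  have g1 : IntegrableOn (fun z : ℝ × ℝ => 3 / (8 * π) *
      (bR W z.1 * bR W z.2 * ct (z.1 + z.2))) Sq1 := j3.const_mul _
  have g2 : IntegrableOn (fun z : ℝ × ℝ => bR W z.1 * bF W z.2 *
      (ct (z.1 + z.2) - ct (z.1 - z.2))) Sq1 := by
    refine (i2.add i1).congr (Filter.Eventually.of_forall fun z => ?_)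
    show bF W z.2 * bR W z.1 * ct (z.2 + z.1) + bF W z.2 * bR W z.1 * ct (z.2 - z.1) = _
    rw [ctc z.1 z.2, add_comm z.2 z.1]
    ring
  have g3 : IntegrableOn (fun z : ℝ × ℝ => 3 / (8 * π) * (bR W z.1 * bF W z.2 *
      (ct (z.1 + z.2) - ct (z.1 - z.2)))) Sq1 := g2.const_mul _
  have e1 : ∀ z : ℝ × ℝ, bR W z.1 * bR W z.2 * kJb z.1 z.2 -
      3 / (8 * π) * (bR W z.1 * bR W z.2 * ct (z.1 + z.2)) =
      bR W z.1 * bR W z.2 * kBb z.1 z.2 := by
    intro z
    unfold kBb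
    ring
  have e2 : ∀ z : ℝ × ℝ, bR W z.1 * bF W z.2 * kJn z.1 z.2 +
      3 / (8 * π) * (bR W z.1 * bF W z.2 * (ct (z.1 + z.2) - ct (z.1 - z.2))) =
      bR W z.1 * bF W z.2 * kBn z.1 z.2 := by
    intro z
    unfold kBn
    ring
  refine ⟨(f1.sub g1).congr (Filter.Eventually.of_forall e1),
    (f2.add g3).congr (Filter.Eventually.of_forall e2), ?_⟩
  have q1 : ∫ z in Sq1, bR W z.1 * bR W z.2 * kBb z.1 z.2 =
      (∫ z in Sq1, bR W z.1 * bR W z.2 * kJb z.1 z.2) -
        3 / (8 * π) * ∫ z in Sq1, bR W z.1 * bR W z.2 * ct (z.1 + z.2) := by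
    rw [← integral_const_mul, ← integral_sub f1 g1]
    exact integral_congr_ae (Filter.Eventually.of_forall fun z => (e1 z).symm)
  have q2 : ∫ z in Sq1, bR W z.1 * bF W z.2 * kBn z.1 z.2 =
      (∫ z in Sq1, bR W z.1 * bF W z.2 * kJn z.1 z.2) +
        3 / (8 * π) * ∫ z in Sq1, bR W z.1 * bF W z.2 * (ct (z.1 + z.2) - ct (z.1 - z.2)) := by
    rw [← integral_const_mul, ← integral_add f2 g3]
    exact integral_congr_ae (Filter.Eventually.of_forall fun z => (e2 z).symm)
  rw [BN_JF h hK hδ hv, f3, hM, q1, q2]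
  have : (π:ℝ) ≠ 0 := Real.pi_ne_zero
  field_simp
  ring

end Pool.Agent.H53.DE
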