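import Pool.Agent.H53.DE.KerF
import Pool.Agent.H90.DC.PPf
import Pool.Agent.H90.DC.KEv

/-!
# DE: the budgets, note 1895 section 5

With `Y = cot (x/2)`, `Z = cot (y/2)`: `8π kBb = -k3 - rb3 - l1k + rb1 + 2/(Y+Z)`,
`rb3 = (Y²+Z²)YZ/(Y+Z) - Y³ log(1+Z/Y) - Z³ log(1+Y/Z)`, `rb1 = Y log(1+Z/Y) + Z log(1+Y/Z) - 4YZ/(Y+Z)`;
`-form k3 - form rb3 = 2 ∫_0^∞ Lpp DD + ∫ (1/c+4/c³) corr ≥ (3π/2) ‖A_{3/2}‖²`,
`-form l1k + form rb1 = ∫_0^∞ (2 Lpp - 1/c + 8/c³) DD ≥ 0`; the cross kernel is nonnegative.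
-/

set_option autoImplicit false
open Real Set MeasureTheory Filter Topology

namespace Pool.Agent.H53.DE
open Pool.Agent.H45.FL Pool.Agent.H51.DG Pool.Agent.H45.DY Pool.Agent.H90.DC Pool.Agent.H90.DE
open Pool.Agent.H12.DE

/-! ## Kernels -/

noncomputable def rb3 (Y Z : ℝ) : ℝ :=
  (Y ^ 2 + Z ^ 2) * (Y * Z) / (Y + Z) - Y ^ 3 * Real.log (1 + Z / Y) - Z ^ 3 * Real.log (1 + Y / Z)

noncomputable def rb1 (Y Z : ℝ) : ℝ :=
  Y * Real.log (1 + Z / Y) + Z * Real.log (1 + Y / Z) - 4 * (Y * Z) / (Y + Z)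

noncomputable def qb3 (τ : ℝ) : ℝ := q3 τ - 9 / 2 * (1 / cc τ ^ 3)
noncomputable def qb3d (τ : ℝ) : ℝ := q3d τ + 27 / 2 * (Real.sinh (τ / 2) / cc τ ^ (2 + 2))
noncomputable def mb3 (τ : ℝ) : ℝ := m3 τ - 54 * (1 / cc τ ^ 5)

noncomputable def qb1 (τ : ℝ) : ℝ := q1 τ + 3 / 2 * (1 / cc τ ^ 1) - 27 / 2 * (1 / cc τ ^ 3)
noncomputable def qb1d (τ : ℝ) : ℝ :=
  q1d τ - 3 / 2 * (Real.sinh (τ / 2) / cc τ ^ (0 + 2)) + 81 / 2 * (Real.sinh (τ / 2) / cc τ ^ (2 + 2))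
noncomputable def mb1 (τ : ℝ) : ℝ := 1 / cc τ ^ 1 - 8 * (1 / cc τ ^ 3)

/-- `1/c + 4/c³` -/
noncomputable def fb (τ : ℝ) : ℝ := 1 / cc τ ^ 1 + 4 * (1 / cc τ ^ 3)

theorem mb3_eq (τ : ℝ) : mb3 τ = -fb τ := by
  unfold mb3 fb m3 ell cc
  ring

theorem mb1_eq (τ : ℝ) : mb1 τ = m1 τ + 30 * (1 / cc τ ^ 3) - 162 * (1 / cc τ ^ 5) := by
  rw [m1_eq]
  unfold mb1
  ring

theorem kerR_qb3 : KerR (3 / 2) qb3 qb3d mb3 where
  d1 τ := by
    refine ((kerR_q3.d1 τ).sub ((hd_c3 τ).const_mul (9 / 2))).congr_deriv ?_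
    unfold qb3d
    ring
  d2 τ := by
    refine ((kerR_q3.d2 τ).add ((hd_s4 τ).const_mul (27 / 2))).congr_deriv ?_
    unfold qb3 mb3
    ring
  bd := by
    obtain ⟨K, hK⟩ := kerR_q3.bd
    refine ⟨K + 70, fun τ => ?_⟩
    obtain ⟨h1, h2, h3⟩ := hK τ
    have h4 := inv_bdd 3 τ
    have h5 := sh_inv_one (n := 2) τ
    have h6 := inv_bdd 5 τ
    rw [abs_le] at h1 h2 h3 h4 h5 h6
    unfold qb3 qb3d mb3
    refine ⟨?_, ?_, ?_⟩ <;> rw [abs_le] <;> constructor <;>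
      linarith [h1.1, h1.2, h2.1, h2.2, h3.1, h3.2, h4.1, h4.2, h5.1, h5.2, h6.1, h6.2]
  cl := kerR_q3.cl.sub (continuous_const.mul (cont_inv 5))
  ev τ := by
    unfold mb3
    rw [kerR_q3.ev, cc_neg]

theorem kerR_qb1 : KerR (1 / 2) qb1 qb1d mb1 where
  d1 τ := by
    refine (((kerR_q1.d1 τ).add ((hd_c1 τ).const_mul (3 / 2))).sub
      ((hd_c3 τ).const_mul (27 / 2))).congr_deriv ?_
    unfold qb1d
    ring
  d2 τ := by
    refine (((kerR_q1.d2 τ).sub ((hd_s2 τ).const_mul (3 / 2))).add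
      ((hd_s4 τ).const_mul (81 / 2))).congr_deriv ?_
    rw [mb1_eq]
    unfold qb1
    ring
  bd := by
    obtain ⟨K, hK⟩ := kerR_q1.bd
    refine ⟨K + 200, fun τ => ?_⟩
    obtain ⟨h1, h2, h3⟩ := hK τ
    have h4 := inv_bdd 3 τ
    have h5 := sh_inv_one (n := 2) τ
    have h5' := sh_inv_one (n := 0) τ
    have h6 := inv_bdd 1 τ
    have h7 := (abs_nonneg _).trans h1
    rw [abs_le] at h1 h2 h3 h4 h5 h5' h6
    unfold qb1 qb1d mb1
    refine ⟨?_, ?_, ?_⟩ <;> rw [abs_le] <;> constructor <;>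
      linarith [h1.1, h1.2, h2.1, h2.2, h3.1, h3.2, h4.1, h4.2, h5.1, h5.2, h6.1, h6.2, h5'.1, h5'.2]
  cl := (cont_inv 1).sub (continuous_const.mul (cont_inv 3))
  ev τ := by
    unfold mb1
    rw [cc_neg]

theorem rb3_exp (r s : ℝ) : rb3 (Real.exp (-r)) (Real.exp (-s)) =
    Real.exp (-(3 / 2 * (r + s))) * qb3 (r - s) := by
  have h1 := PP_exp_sq r s
  have h2 : Real.exp (-(3 / 2 * (r + s))) = (Real.exp ((r + s) / 2) ^ 3)⁻¹ := by
    rw [← Real.exp_nat_mul, ← Real.exp_neg]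
    congr 1
    push_cast
    ring
  have h0 := r3k_exp r s
  have p1 := Real.exp_pos (-r)
  have p2 := Real.exp_pos (-s)
  have p3 := Real.exp_pos ((r + s) / 2)
  have h5 : 9 / 2 * (Real.exp (-r) ^ 3 * Real.exp (-s) ^ 3) / (Real.exp (-r) + Real.exp (-s)) ^ 3 =
      Real.exp (-(3 / 2 * (r + s))) * (9 / 2 * (1 / cc (r - s) ^ 3)) := by
    rw [PP_cc_sub, h2]
    generalize Real.exp (-r) = a at *
    generalize Real.exp (-s) = b at *
    generalize Real.exp ((r + s) / 2) = e at *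
    rw [div_eq_iff (by positivity)]
    field_simp
    have h3 : a ^ 3 * b ^ 3 * e ^ 6 = (a * b * e ^ 2) ^ 3 := by ring
    rw [h3, h1]
    norm_num
  have h6 : rb3 (Real.exp (-r)) (Real.exp (-s)) = r3k (Real.exp (-r)) (Real.exp (-s)) -
      9 / 2 * (Real.exp (-r) ^ 3 * Real.exp (-s) ^ 3) / (Real.exp (-r) + Real.exp (-s)) ^ 3 := by
    unfold rb3 r3k rl0
    ring
  rw [h6, h0, h5]
  unfold qb3
  ring

theorem rb1_exp (r s : ℝ) : rb1 (Real.exp (-r)) (Real.exp (-s)) =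
    Real.exp (-(1 / 2 * (r + s))) * qb1 (r - s) := by
  have h1 := PP_exp_sq r s
  have h2 : Real.exp (-(1 / 2 * (r + s))) = (Real.exp ((r + s) / 2))⁻¹ := by
    rw [← Real.exp_neg]
    congr 1
    ring
  have p1 := Real.exp_pos (-r)
  have p2 := Real.exp_pos (-s)
  have p3 := Real.exp_pos ((r + s) / 2)
  have h0 := r1k_exp r s
  have h6 : rb1 (Real.exp (-r)) (Real.exp (-s)) = r1k (Real.exp (-r)) (Real.exp (-s)) +
      (-(3 * (Real.exp (-r) * Real.exp (-s)) / (Real.exp (-r) + Real.exp (-s)))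
        + 9 / 2 * (Real.exp (-r) * Real.exp (-s) * (Real.exp (-r) ^ 2 + Real.exp (-s) ^ 2 -
        Real.exp (-r) * Real.exp (-s))) / (Real.exp (-r) + Real.exp (-s)) ^ 3) := by
    unfold rb1 r1k
    ring
  have h5 : -(3 * (Real.exp (-r) * Real.exp (-s)) / (Real.exp (-r) + Real.exp (-s)))
        + 9 / 2 * (Real.exp (-r) * Real.exp (-s) * (Real.exp (-r) ^ 2 + Real.exp (-s) ^ 2 -
        Real.exp (-r) * Real.exp (-s))) / (Real.exp (-r) + Real.exp (-s)) ^ 3 =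
      Real.exp (-(1 / 2 * (r + s))) *
        (3 / 2 * (1 / cc (r - s) ^ 1) - 27 / 2 * (1 / cc (r - s) ^ 3)) := by
    rw [PP_cc_sub, h2]
    generalize Real.exp (-r) = a at *
    generalize Real.exp (-s) = b at *
    generalize Real.exp ((r + s) / 2) = e at *
    have hE : e ^ 2 = 1 / (a * b) := by
      rw [eq_div_iff (by positivity)]
      linarith
    have k1 : 1 / ((a + b) * e) ^ 1 = (a * b) / (a + b) * e := by
      rw [pow_one]
      field_simp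
      rw [hE]
      field_simp
    have k3 : 1 / ((a + b) * e) ^ 3 = (a * b) ^ 2 / (a + b) ^ 3 * e := by
      have e4 : e ^ 4 = 1 / (a * b) ^ 2 := by
        have : e ^ 4 = (e ^ 2) ^ 2 := by ring
        rw [this, hE]
        field_simp
      field_simp
      rw [e4]
      field_simp
    rw [k1, k3]
    field_simp
    ring
  rw [h6, h5, h0]
  unfold qb1
  ring

/-! ## Integrals -/

theorem fb_int : Integrable fb :=
  (int_inv (by norm_num)).add ((int_inv (by norm_num)).const_mul 4)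

theorem fb_nonneg (τ : ℝ) : 0 ≤ fb τ := by
  have := cc_pos τ
  unfold fb
  positivity

theorem fb_le_Lpp {τ : ℝ} (h : τ ≠ 0) : fb τ ≤ 2 * Lpp τ := by
  have h1 := KE_sinh_pos h
  have h2 := cc_sinh_sq τ
  have h3 := cc_ge τ
  have h4 := cc_pos τ
  have h5 : 2 * Lpp τ = cc τ / (cc τ ^ 2 - 4) := KE_two_Lpp h
  rw [h5]
  unfold fb
  generalize cc τ = c at h2 h3 h4
  have hw : 0 < c ^ 2 - 4 := by rw [← h2]; positivity
  have e1 : 1 / c ^ 1 + 4 * (1 / c ^ 3) = (c ^ 2 + 4) / c ^ 3 := by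
    field_simp
  rw [e1, div_le_div_iff₀ (by positivity) hw]
  nlinarith

theorem mb1_le_Lpp {τ : ℝ} (h : τ ≠ 0) : mb1 τ ≤ 2 * Lpp τ := by
  refine le_trans ?_ (fb_le_Lpp h)
  have := cc_pos τ
  unfold mb1 fb
  have h2 : 0 ≤ 1 / cc τ ^ 3 := by positivity
  linarith

theorem integral_mb1 : ∫ τ in Ioi (0:ℝ), mb1 τ = 0 := by
  have hd : ∀ τ : ℝ, HasDerivAt (fun τ : ℝ => -4 * (Real.sinh (τ / 2) / cc τ ^ (0 + 2)))
      (mb1 τ) τ := by
    intro τ
    refine ((hd_s2 τ).const_mul (-4)).congr_deriv ?_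
    unfold mb1
    ring
  have ht : Tendsto (fun τ : ℝ => -4 * (Real.sinh (τ / 2) / cc τ ^ (0 + 2))) atTop
      (𝓝 (-4 * 0)) := (tendsto_exp_half _ (sh_inv (n := 0))).const_mul _
  have hi : Integrable mb1 := (int_inv (by norm_num)).sub ((int_inv (by norm_num)).const_mul 8)
  have h := integral_Ioi_of_hasDerivAt_of_tendsto' (a := 0) (fun τ _ => hd τ) hi.integrableOn ht
  rw [h, zero_div, Real.sinh_zero]
  ring

theorem integral_c1 : ∫ τ, 1 / cc τ ^ 1 = π := by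
  have hd : ∀ τ : ℝ, HasDerivAt (fun τ : ℝ => 2 * Real.arctan (Real.exp (τ / 2)))
      (1 / cc τ ^ 1) τ := by
    intro τ
    have h0 : HasDerivAt (fun τ : ℝ => Real.exp (τ / 2)) (Real.exp (τ / 2) * (1 / 2)) τ :=
      ((hasDerivAt_id τ).div_const 2).exp
    refine ((h0.arctan).const_mul 2).congr_deriv ?_
    rw [cc_eq, pow_one, Real.exp_neg]
    have := Real.exp_pos (τ / 2)
    field_simp
    ring
  have l1 : Tendsto (fun τ : ℝ => 2 * Real.arctan (Real.exp (τ / 2))) atBot (𝓝 (2 * 0)) := by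
    refine Tendsto.const_mul 2 ?_
    have h1 : Tendsto (fun τ : ℝ => Real.exp (τ / 2)) atBot (𝓝 0) :=
      Real.tendsto_exp_atBot.comp (tendsto_id.atBot_div_const (by norm_num))
    have h2 := (Real.continuous_arctan.tendsto 0).comp h1
    rwa [Real.arctan_zero] at h2
  have l2 : Tendsto (fun τ : ℝ => 2 * Real.arctan (Real.exp (τ / 2))) atTop (𝓝 (2 * (π / 2))) := by
    refine Tendsto.const_mul 2 ?_
    have h1 : Tendsto (fun τ : ℝ => Real.exp (τ / 2)) atTop atTop :=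
      Real.tendsto_exp_atTop.comp (tendsto_id.atTop_div_const (by norm_num))
    exact (Real.tendsto_arctan_atTop.mono_right nhdsWithin_le_nhds).comp h1
  have h := integral_of_hasDerivAt_of_tendsto hd (int_inv (n := 1) (by norm_num)) l1 l2
  rw [h]
  ring

theorem integral_c3 : ∫ τ, 1 / cc τ ^ 3 = π / 8 := by
  have hd : ∀ τ : ℝ, HasDerivAt (fun τ : ℝ => Real.sinh (τ / 2) / cc τ ^ (0 + 2))
      (-(1 / 4 * (1 / cc τ ^ 1)) + 2 * (1 / cc τ ^ 3)) τ := hd_s2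
  have l2 : Tendsto (fun τ : ℝ => Real.sinh (τ / 2) / cc τ ^ (0 + 2)) atTop (𝓝 0) :=
    tendsto_exp_half _ (sh_inv (n := 0))
  have l1 : Tendsto (fun τ : ℝ => Real.sinh (τ / 2) / cc τ ^ (0 + 2)) atBot (𝓝 0) := by
    have h1 := (l2.comp tendsto_neg_atBot_atTop).neg
    rw [neg_zero] at h1
    refine h1.congr fun τ => ?_
    show -(Real.sinh (-τ / 2) / cc (-τ) ^ (0 + 2)) = _
    rw [neg_div, Real.sinh_neg, cc_neg]
    ring
  have i1 : Integrable fun τ : ℝ => -(1 / 4 * (1 / cc τ ^ 1)) :=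
    ((int_inv (by norm_num)).const_mul _).neg
  have i3 : Integrable fun τ : ℝ => 2 * (1 / cc τ ^ 3) := (int_inv (by norm_num)).const_mul _
  have h := integral_of_hasDerivAt_of_tendsto hd (i1.add i3) l1 l2
  rw [integral_add i1 i3, integral_neg, integral_const_mul, integral_const_mul, integral_c1] at h
  linarith

theorem fb_integral : ∫ τ, fb τ = 3 * π / 2 := by
  have i1 : Integrable fun τ : ℝ => 1 / cc τ ^ 1 := int_inv (by norm_num)
  have i3 : Integrable fun τ : ℝ => 4 * (1 / cc τ ^ 3) := (int_inv (by norm_num)).const_mul _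
  unfold fb
  rw [integral_add i1 i3, integral_const_mul, integral_c1, integral_c3]
  ring

/-! ## Forms -/

theorem form_b3 {b : ℝ → ℝ} (hb : Bd b) : FInt b b rb3 ∧
    3 * π / 2 * corr (Am (3 / 2) b) (Am (3 / 2) b) 0 ≤ -form b b k3 - form b b rb3 := by
  have hA : Adm (Am (3 / 2) b) (Amd (3 / 2) b) := adm_Am hb (by norm_num)
  obtain ⟨f1, f2⟩ := PP_form kerR_qb3 (by norm_num) rb3_exp hb
  refine ⟨f1, ?_⟩
  rw [(form_k3 hb).2, f2]
  unfold N3
  generalize hAd : Am (3 / 2) b = A at *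
  have hCc := NE_corr_continuous hA hA
  obtain ⟨K, hK⟩ := NE_corr_bdd hA hA
  have i1 : Integrable (fun τ => fb τ * corr A A τ) := NE_integrable_mul fb_int hCc hK
  have i2 : Integrable (fun τ => fb τ * DD A τ) := by
    have e : (fun τ => fb τ * DD A τ) = fun τ => 2 * corr A A 0 * fb τ - 2 * (fb τ * corr A A τ) := by
      funext τ
      rw [DD_eq hA]
      ring
    rw [e]
    exact (fb_int.const_mul _).sub (i1.const_mul 2)
  have ed : ∀ τ, DD A (-τ) = DD A τ := by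
    intro τ
    rw [DD_eq hA, DD_eq hA, corr_swap]
  have ef : ∀ τ, fb (-τ) = fb τ := by
    intro τ
    unfold fb
    rw [cc_neg]
  have e1 : ∫ τ, fb τ * DD A τ = 2 * ∫ τ in Ioi (0:ℝ), fb τ * DD A τ := by
    rw [← intervalIntegral.integral_Iic_add_Ioi (b := (0:ℝ)) i2.integrableOn i2.integrableOn]
    have h := integral_comp_neg_Ioi (0:ℝ) (fun τ => fb τ * DD A τ)
    rw [neg_zero] at h
    rw [← h]
    simp only [ef, ed]
    ring
  have e2 : ∫ τ, fb τ * DD A τ = 2 * corr A A 0 * (3 * π / 2) - 2 * ∫ τ, fb τ * corr A A τ := by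
    rw [← fb_integral, ← integral_const_mul, ← integral_const_mul,
      ← integral_sub (fb_int.const_mul _) (i1.const_mul 2)]
    refine integral_congr_ae (Eventually.of_forall fun τ => ?_)
    simp only
    rw [DD_eq hA]
    ring
  have e3 : ∫ τ, mb3 τ * corr A A τ = -∫ τ, fb τ * corr A A τ := by
    rw [← integral_neg]
    refine integral_congr_ae (Eventually.of_forall fun τ => ?_)
    simp only
    rw [mb3_eq]
    ring
  obtain ⟨j2, e4⟩ := PP_Lpp2 hA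
  have h2 : ∫ τ in Ioi (0:ℝ), fb τ * DD A τ ≤ ∫ τ in Ioi (0:ℝ), 2 * Lpp τ * DD A τ := by
    refine setIntegral_mono_on i2.integrableOn j2 measurableSet_Ioi fun τ hτ => ?_
    exact mul_le_mul_of_nonneg_right (fb_le_Lpp (ne_of_gt hτ)) (DD_nonneg _ _)
  rw [e3]
  rw [e1] at e2
  linarith

theorem form_b1 {b : ℝ → ℝ} (hb : Bd b) : FInt b b rb1 ∧ form b b l1k ≤ form b b rb1 := by
  have hA : Adm (Am (1 / 2) b) (Amd (1 / 2) b) := adm_Am hb (by norm_num)
  obtain ⟨f1, f2⟩ := PP_form kerR_qb1 (by norm_num) rb1_exp hb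
  refine ⟨f1, ?_⟩
  have hl : form b b l1k = -2 * ∫ τ in Ioi (0:ℝ), Lpp τ * DD (Am (1 / 2) b) τ := by
    have hc := NG_conv (m := 1 / 2) (p := b) (q := b) (K := l1k) (k := fun r s => n1 |r - s|)
      (fun r s hrs => l1k_exp hrs)
    unfold form
    rw [integral_th, integral_congr_ae hc, n1_kerN.diff_formula hA]
  rw [hl, f2]
  have hi : Integrable mb1 := (int_inv (by norm_num)).sub ((int_inv (by norm_num)).const_mul 8)
  obtain ⟨j1, i1, e1⟩ := PP_even hA hi kerR_qb1.ev integral_mb1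
  obtain ⟨j2, e2⟩ := PP_Lpp2 hA
  rw [e1]
  have h2 : ∫ τ in Ioi (0:ℝ), mb1 τ * DD (Am (1 / 2) b) τ ≤
      ∫ τ in Ioi (0:ℝ), 2 * Lpp τ * DD (Am (1 / 2) b) τ := by
    refine setIntegral_mono_on j1 j2 measurableSet_Ioi fun τ hτ => ?_
    exact mul_le_mul_of_nonneg_right (mb1_le_Lpp (ne_of_gt hτ)) (DD_nonneg _ _)
  linarith

/-- lower bound of the norm by one value of the cumulative mass -/
theorem corr0_ge {b : ℝ → ℝ} (hb : Bd b) {θ : ℝ} (h0 : 0 < θ) (h1 : θ < π) :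
    (∫ x in (0:ℝ)..θ, b x) ^ 2 / (3 * Real.tan (θ / 2) ^ 3) ≤
      corr (Am (3 / 2) b) (Am (3 / 2) b) 0 := by
  have hpi := Real.pi_pos
  have hA : Adm (Am (3 / 2) b) (Amd (3 / 2) b) := adm_Am hb (by norm_num)
  have ht : 0 < Real.tan (θ / 2) := Real.tan_pos_of_pos_of_lt_pi_div_two (by linarith) (by linarith)
  obtain ⟨r0, hr0⟩ : ∃ r0, r0 = Real.log (Real.tan (θ / 2)) := ⟨_, rfl⟩
  have he : Real.exp r0 = Real.tan (θ / 2) := by rw [hr0, Real.exp_log ht]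
  have hth : th r0 = θ := by
    unfold th
    rw [he, Real.arctan_tan (by linarith) (by linarith)]
    ring
  have hM0 : ∫ x in (0:ℝ)..θ, b x = MMb b r0 := by
    unfold MMb
    rw [hth]
  have hthpos : ∀ r, 0 < th r := fun r => by
    unfold th
    have := Real.arctan_pos.2 (Real.exp_pos r)
    linarith
  have hthlt : ∀ r, th r < π := fun r => by
    unfold th
    have := Real.arctan_lt_pi_div_two (Real.exp r)
    linarith
  have hmono : ∀ r, r0 ≤ r → MMb b r0 ≤ MMb b r := by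
    intro r hr
    unfold MMb
    have hle : th r0 ≤ th r := by
      unfold th
      have := Real.arctan_strictMono.monotone (Real.exp_le_exp.2 hr)
      linarith
    have hs := intervalIntegral.integral_add_adjacent_intervals
      (hb.c.intervalIntegrable 0 (th r0)) (hb.c.intervalIntegrable (th r0) (th r))
      (μ := volume)
    have hn : 0 ≤ ∫ x in (th r0)..(th r), b x := by
      refine intervalIntegral.integral_nonneg hle fun x hx => ?_
      exact hb.nn x ⟨(hthpos r0).le.trans hx.1, hx.2.trans (hthlt r).le⟩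
    linarith
  have hMn : 0 ≤ MMb b r0 := by
    unfold MMb
    refine intervalIntegral.integral_nonneg (hthpos r0).le fun x hx => ?_
    exact hb.nn x ⟨hx.1, hx.2.trans (hthlt r0).le⟩
  -- integrability of `A²`
  have hi : Integrable (fun r => Am (3 / 2) b r * Am (3 / 2) b (r + 0)) :=
    (hA.integrable_mul hA 0).1
  have hE : ∫ r in Ioi r0, Real.exp (-(3 * r)) = Real.exp (-(3 * r0)) / 3 := by
    have := integral_exp_mul_Ioi (a := -3) (by norm_num) r0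
    have e : (fun r : ℝ => Real.exp (-(3 * r))) = fun r => Real.exp (-3 * r) := by
      funext r
      congr 1
      ring
    rw [e, this]
    have e2 : -3 * r0 = -(3 * r0) := by ring
    rw [e2]
    ring
  have hEi : IntegrableOn (fun r : ℝ => Real.exp (-(3 * r))) (Ioi r0) := by
    have := integrableOn_exp_mul_Ioi (a := -3) (by norm_num) r0
    refine this.congr_fun (fun r _ => ?_) measurableSet_Ioi
    show Real.exp (-3 * r) = _
    congr 1
    ring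
  have h3 : ∫ r in Ioi r0, MMb b r0 ^ 2 * Real.exp (-(3 * r)) ≤
      ∫ r in Ioi r0, Am (3 / 2) b r * Am (3 / 2) b (r + 0) := by
    refine setIntegral_mono_on (hEi.const_mul _) hi.integrableOn measurableSet_Ioi fun r hr => ?_
    rw [add_zero]
    unfold Am
    have e1 : Real.exp (-(3 / 2 * r)) * MMb b r * (Real.exp (-(3 / 2 * r)) * MMb b r) =
        MMb b r ^ 2 * Real.exp (-(3 * r)) := by
      have : Real.exp (-(3 * r)) = Real.exp (-(3 / 2 * r)) * Real.exp (-(3 / 2 * r)) := by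
        rw [← Real.exp_add]
        congr 1
        ring
      rw [this]
      ring
    rw [e1]
    have := hmono r (le_of_lt hr)
    gcongr
  have h4 : ∫ r in Ioi r0, Am (3 / 2) b r * Am (3 / 2) b (r + 0) ≤
      ∫ r, Am (3 / 2) b r * Am (3 / 2) b (r + 0) :=
    setIntegral_le_integral hi (Eventually.of_forall fun r => by
      show 0 ≤ Am (3 / 2) b r * Am (3 / 2) b (r + 0)
      rw [add_zero]
      exact mul_self_nonneg _)
  rw [integral_const_mul, hE] at h3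
  rw [hM0]
  have h5 : MMb b r0 ^ 2 / (3 * Real.tan (θ / 2) ^ 3) = MMb b r0 ^ 2 * (Real.exp (-(3 * r0)) / 3) := by
    rw [← he, ← Real.exp_nat_mul]
    push_cast
    rw [Real.exp_neg]
    field_simp
  rw [h5]
  exact h3.trans h4

/-! ## Pointwise bounds -/

theorem bud_id {Y Z : ℝ} (hY : 0 < Y) (hZ : 0 < Z) (hne : Y ≠ Z) (A B LY LZ : ℝ) :
    4 * (((Y ^ 2 / 4 + 1 / 4) - (Z ^ 2 / 4 + 1 / 4)) * ((1 + Y * Z) / (Z - Y))
      - ((Y ^ 2 / 4 + 1 / 4) + (Z ^ 2 / 4 + 1 / 4)) * ((Y * Z - 1) / (Y + Z))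
      + (-(Y * (1 + Y ^ 2) / 4) + -(Z * (1 + Z ^ 2) / 4)) * (A - B)) =
    -(Y * Z * (Y + Z) + Y ^ 3 * (A - LY) + Z ^ 3 * (A - LZ))
      - ((Y ^ 2 + Z ^ 2) * (Y * Z) / (Y + Z) - Y ^ 3 * (B - LY) - Z ^ 3 * (B - LZ))
      - (Y * (A - LY) + Z * (A - LZ))
      + (Y * (B - LY) + Z * (B - LZ) - 4 * (Y * Z) / (Y + Z))
      + 2 / (Y + Z) := by
  have h1 : Y + Z ≠ 0 := by positivity
  have h2 : Z - Y ≠ 0 := fun h => hne (by linarith)
  have h3 : ((Y ^ 2 / 4 + 1 / 4) - (Z ^ 2 / 4 + 1 / 4)) * ((1 + Y * Z) / (Z - Y)) =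
      -((Y + Z) * (1 + Y * Z) / 4) := by
    field_simp
    ring
  rw [h3]
  field_simp
  ring

theorem kBb_ge {x y : ℝ} (hx : x ∈ Ioo (0:ℝ) π) (hy : y ∈ Ioo (0:ℝ) π) (hxy : x ≠ y) :
    -k3 (ct x) (ct y) - rb3 (ct x) (ct y) - l1k (ct x) (ct y) + rb1 (ct x) (ct y) ≤
      8 * π * kBb x y := by
  have hpi := Real.pi_pos
  have hsx := SEv_sin hx.1 (by linarith [hx.2])
  have hsy := SEv_sin hy.1 (by linarith [hy.2])
  have hY := ct_pos hx.1 hx.2
  have hZ := ct_pos hy.1 hy.2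
  have hne := SEv_ct_ne hx.1 hy.1 (by linarith [hx.2]) (by linarith [hy.2]) hxy
  have hs : Real.sin ((x + y) / 2) ≠ 0 := by
    rw [KEv_sin_add hsx.ne' hsy.ne']
    positivity
  have e1 : 8 * π * kBb x y =
      4 * (((ct x ^ 2 / 4 + 1 / 4) - (ct y ^ 2 / 4 + 1 / 4)) * ct (x - y) -
        ((ct x ^ 2 / 4 + 1 / 4) + (ct y ^ 2 / 4 + 1 / 4)) * ct (x + y)
        + (dPh x + dPh y) * Lg x y) := by
    unfold kBb kJb Ph
    field_simp
    ring
  have l1 : Real.log (1 - ct y / ct x) = Real.log (ct y - ct x) - Real.log (ct x) := by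
    rw [SEv_logsub hY hne]
    ring
  have l2 : Real.log (1 - ct x / ct y) = Real.log (ct y - ct x) - Real.log (ct y) := by
    have h := SEv_logsub hZ (Ne.symm hne)
    have h' : Real.log (ct x - ct y) = Real.log (ct y - ct x) := by
      rw [show ct x - ct y = -(ct y - ct x) by ring, Real.log_neg_eq_log]
    rw [h'] at h
    rw [h]
    ring
  have l3 : Real.log (1 + ct y / ct x) = Real.log (ct x + ct y) - Real.log (ct x) := by
    have h := SEv_logadd hY hZ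
    rw [add_comm (ct y)] at h
    rw [h]
    ring
  have l4 : Real.log (1 + ct x / ct y) = Real.log (ct x + ct y) - Real.log (ct y) := by
    have h := SEv_logadd hZ hY
    rw [h]
    ring
  rw [e1, KEv_Lg hx hy hxy, SEv_ct_sub hsx.ne' hsy.ne', KEv_ct_add hsx.ne' hsy.ne']
  have h := bud_id hY hZ hne (Real.log (ct y - ct x)) (Real.log (ct x + ct y))
    (Real.log (ct x)) (Real.log (ct y))
  have hR : 0 ≤ 2 / (ct x + ct y) := by positivity
  unfold dPh k3 rb3 l1k rb1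
  rw [l1, l2, l3, l4]
  rw [h]
  linarith

theorem kBn_nonneg {x y : ℝ} (hx : 0 < x) (hxy : x < y) (hy : y < π) : 0 ≤ kBn x y := by
  have hpi := Real.pi_pos
  have hsx := SEv_sin hx (by linarith)
  have hsy := SEv_sin (x := y) (by linarith) (by linarith)
  have hY := ct_pos hx (by linarith)
  have hZ := ct_pos (x := y) (by linarith) hy
  have hZY := ct_lt hx hxy (by linarith)
  have e1 : π * kBn x y =
      (ct x ^ 2 / 4 + 1 / 4) * (ct (x + y) - ct (x - y)) - dPh x * Lg x y := by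
    unfold kBn kJn Ph
    field_simp
    ring
  have hct : ct (x - y) = -ct (y - x) := by
    rw [← SEv_ct_neg, neg_sub]
  have hL : Lg x y = -(Real.log (ct x + ct y) - Real.log (ct x - ct y)) := by
    rw [KEv_Lg ⟨hx, by linarith⟩ ⟨by linarith, hy⟩ hxy.ne,
      show ct y - ct x = -(ct x - ct y) by ring, Real.log_neg_eq_log]
    ring
  have hc : ct (y - x) = (1 + ct x * ct y) / (ct x - ct y) := by
    rw [SEv_ct_sub hsy.ne' hsx.ne', mul_comm (ct y)]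
  have hcc := KEv_cc hZ hZY
  have hLL := KEv_L hZ hZY
  have h0 : 0 ≤ π * kBn x y := by
    rw [e1, hct, hL, sub_neg_eq_add, hc, KEv_ct_add hsx.ne' hsy.ne', hcc]
    unfold dPh
    generalize ct x = Y at *
    generalize ct y = Z at *
    generalize Real.log (Y + Z) - Real.log (Y - Z) = L at *
    have hD : 0 < Y ^ 2 - Z ^ 2 := by nlinarith
    have h1 : Y * (1 + Y ^ 2) / 4 * L ≤ Y * (1 + Y ^ 2) / 4 * (2 * Y * Z / (Y ^ 2 - Z ^ 2)) :=
      mul_le_mul_of_nonneg_left hLL (by positivity)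
    have h2 : (Y ^ 2 / 4 + 1 / 4) * (2 * Z * (1 + Y ^ 2) / (Y ^ 2 - Z ^ 2)) -
        Y * (1 + Y ^ 2) / 4 * (2 * Y * Z / (Y ^ 2 - Z ^ 2)) =
        (1 + Y ^ 2) / 4 * (2 * Z / (Y ^ 2 - Z ^ 2)) := by
      field_simp
      ring
    have h3 : 0 ≤ (1 + Y ^ 2) / 4 * (2 * Z / (Y ^ 2 - Z ^ 2)) := by positivity
    linarith
  exact nonneg_of_mul_nonneg_right h0 hpi

/-! ## The budgets -/

theorem Bud_bd {W : ℝ → ℝ} {K : ℝ} (hK : Lip K W) {δ : ℝ} (hδ : 0 < δ)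
    (hv : ∀ x, |x| ≤ δ → W x = 0) : Bd (bR W) := by
  have hc : Continuous W := hK.continuous
  refine ⟨?_, ?_, δ, hδ, ?_⟩
  · unfold bR
    exact hc.neg.max continuous_const
  · intro x _
    exact le_max_right _ _
  · intro x hx0 hx1
    unfold bR
    rw [hv x (by rwa [abs_of_nonneg hx0]), neg_zero, max_self]

/-- **budget at `0`**: the mass of `N` in `(0,θ)` is controlled by the budget -/
theorem BN_ge {W : ℝ → ℝ} {l K : ℝ} (h : OddE W l) (hK : Lip K W) {δ : ℝ} (hδ : 0 < δ)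
    (hv : ∀ x, |x| ≤ δ → W x = 0) {θ : ℝ} (h0 : 0 < θ) (h1 : θ < π) :
    (∫ x in (0:ℝ)..θ, bR W x) ^ 2 / (16 * Real.tan (θ / 2) ^ 3) ≤ BN W l := by
  have hpi := Real.pi_pos
  have hB := Bud_bd hK hδ hv
  obtain ⟨i1, i2, hJ⟩ := BN_kernel h hK hδ hv
  obtain ⟨f1, -⟩ := form_k3 hB
  obtain ⟨f2, -⟩ := form_l1k hB
  obtain ⟨f3, g3⟩ := form_b3 hB
  obtain ⟨f4, g4⟩ := form_b1 hB
  have f1' : IntegrableOn (fun z : ℝ × ℝ => bR W z.1 * bR W z.2 * k3 (ct z.1) (ct z.2)) Sq1 := f1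
  have f2' : IntegrableOn (fun z : ℝ × ℝ => bR W z.1 * bR W z.2 * l1k (ct z.1) (ct z.2)) Sq1 := f2
  have f3' : IntegrableOn (fun z : ℝ × ℝ => bR W z.1 * bR W z.2 * rb3 (ct z.1) (ct z.2)) Sq1 := f3
  have f4' : IntegrableOn (fun z : ℝ × ℝ => bR W z.1 * bR W z.2 * rb1 (ct z.1) (ct z.2)) Sq1 := f4
  have hb : ∀ x, 0 ≤ bR W x := fun x => le_max_right _ _
  have ha : ∀ x, 0 ≤ bF W x := fun x => le_max_right _ _
  have hadd : ∀ f g : ℝ × ℝ → ℝ, IntegrableOn f Sq1 → IntegrableOn g Sq1 →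
      IntegrableOn (fun z => f z + g z) Sq1 ∧
        ∫ z in Sq1, (f z + g z) = (∫ z in Sq1, f z) + ∫ z in Sq1, g z :=
    fun f g hf hg => ⟨hf.add hg, integral_add hf hg⟩
  have hsub : ∀ f g : ℝ × ℝ → ℝ, IntegrableOn f Sq1 → IntegrableOn g Sq1 →
      IntegrableOn (fun z => f z - g z) Sq1 ∧
        ∫ z in Sq1, (f z - g z) = (∫ z in Sq1, f z) - ∫ z in Sq1, g z :=
    fun f g hf hg => ⟨hf.sub hg, integral_sub hf hg⟩
  obtain ⟨a4, b4⟩ := hadd _ _ f1' f3'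
  obtain ⟨a5, b5⟩ := hsub _ _ f4' f2'
  obtain ⟨a6, b6⟩ := hsub _ _ a5 a4
  have hmono := integral_mono_ae a6 (i1.const_mul (8 * π)) (by
    filter_upwards [ae_off l] with z hz
    obtain ⟨⟨hx, hy⟩, h1, h2, h3⟩ := hz
    have h1 := mul_le_mul_of_nonneg_left (kBb_ge hx hy h1) (mul_nonneg (hb z.1) (hb z.2))
    show bR W z.1 * bR W z.2 * rb1 (ct z.1) (ct z.2) - bR W z.1 * bR W z.2 * l1k (ct z.1) (ct z.2)
      - (bR W z.1 * bR W z.2 * k3 (ct z.1) (ct z.2) + bR W z.1 * bR W z.2 * rb3 (ct z.1) (ct z.2)) ≤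
      8 * π * (bR W z.1 * bR W z.2 * kBb z.1 z.2)
    calc _ = bR W z.1 * bR W z.2 * (-k3 (ct z.1) (ct z.2) - rb3 (ct z.1) (ct z.2)
          - l1k (ct z.1) (ct z.2) + rb1 (ct z.1) (ct z.2)) := by ring
      _ ≤ _ := h1
      _ = _ := by ring)
  rw [integral_const_mul, b6, b5, b4] at hmono
  have hcross : 0 ≤ ∫ z in Sq1, bR W z.1 * bF W z.2 * kBn z.1 z.2 := by
    refine integral_nonneg_of_ae ?_
    filter_upwards [ae_off l] with z hz
    obtain ⟨⟨hx, hy⟩, h1, h2, h3⟩ := hz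
    show 0 ≤ bR W z.1 * bF W z.2 * kBn z.1 z.2
    rcases lt_or_gt_of_ne h2 with h4 | h4
    · rcases lt_or_gt_of_ne h3 with h5 | h5
      · have : bF W z.2 = 0 := max_eq_right (h.neg z.2 ⟨hy.1.le, h5.le⟩)
        rw [this, mul_zero, zero_mul]
      · exact mul_nonneg (mul_nonneg (hb _) (ha _)) (kBn_nonneg hx.1 (h4.trans h5) hy.2)
    · have : bR W z.1 = 0 := max_eq_right (by
        have := h.pos z.1 ⟨h4.le, hx.2.le⟩
        linarith)
      rw [this, zero_mul, zero_mul]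
  have g3' : 3 * π / 2 * corr (Am (3 / 2) (bR W)) (Am (3 / 2) (bR W)) 0 ≤
      -(∫ z in Sq1, bR W z.1 * bR W z.2 * k3 (ct z.1) (ct z.2)) -
      ∫ z in Sq1, bR W z.1 * bR W z.2 * rb3 (ct z.1) (ct z.2) := g3
  have g4' : ∫ z in Sq1, bR W z.1 * bR W z.2 * l1k (ct z.1) (ct z.2) ≤
      ∫ z in Sq1, bR W z.1 * bR W z.2 * rb1 (ct z.1) (ct z.2) := g4
  have h5 := corr0_ge hB h0 h1
  have ht : 0 < Real.tan (θ / 2) := Real.tan_pos_of_pos_of_lt_pi_div_two (by linarith) (by linarith)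
  have h6 : 3 * π / 2 * ((∫ x in (0:ℝ)..θ, bR W x) ^ 2 / (3 * Real.tan (θ / 2) ^ 3)) ≤
      8 * π * BN W l := by
    have h7 : 3 * π / 2 * ((∫ x in (0:ℝ)..θ, bR W x) ^ 2 / (3 * Real.tan (θ / 2) ^ 3)) ≤
        3 * π / 2 * corr (Am (3 / 2) (bR W)) (Am (3 / 2) (bR W)) 0 :=
      mul_le_mul_of_nonneg_left h5 (by positivity)
    have h8 : 0 ≤ 8 * π * ∫ z in Sq1, bR W z.1 * bF W z.2 * kBn z.1 z.2 := by positivity
    rw [hJ, mul_add]
    linarith
  have h9 : 3 * π / 2 * ((∫ x in (0:ℝ)..θ, bR W x) ^ 2 / (3 * Real.tan (θ / 2) ^ 3)) =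
      8 * π * ((∫ x in (0:ℝ)..θ, bR W x) ^ 2 / (16 * Real.tan (θ / 2) ^ 3)) := by
    field_simp
    ring
  rw [h9] at h6
  exact le_of_mul_le_mul_left h6 (by positivity)

theorem BN_nonneg {W : ℝ → ℝ} {l K : ℝ} (h : OddE W l) (hK : Lip K W) {δ : ℝ} (hδ : 0 < δ)
    (hv : ∀ x, |x| ≤ δ → W x = 0) : 0 ≤ BN W l := by
  have hpi := Real.pi_pos
  have ht : 0 < Real.tan (l / 2) := Real.tan_pos_of_pos_of_lt_pi_div_two
    (by linarith [h.l0]) (by linarith [h.l1])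
  refine le_trans ?_ (BN_ge h hK hδ hv h.l0 h.l1)
  positivity

/-- **budget at `π`**: the mass of `P` in `(π-θ,π)` is controlled by the budget -/
theorem BP_ge {W : ℝ → ℝ} {l K : ℝ} (h : OddE W l) (hK : Lip K W) {δ : ℝ} (hδ : 0 < δ)
    (hv : ∀ x, |x - π| ≤ δ → W x = 0) {θ : ℝ} (h0 : 0 < θ) (h1 : θ < π) :
    (∫ x in (π - θ)..π, bF W x) ^ 2 / (16 * Real.tan (θ / 2) ^ 3) ≤ BP W l := by
  have h2 := BN_ge (OE_sft h) (sft_lip hK) hδ (fun x hx => by
    rw [sft_apply]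
    exact hv (x + π) (by rwa [add_sub_cancel_right])) h0 h1
  rw [BN_sft h hK] at h2
  have e : ∫ x in (0:ℝ)..θ, bR (sft W) x = ∫ x in (π - θ)..π, bF W x := by
    have h3 := intervalIntegral.integral_comp_sub_left (a := 0) (b := θ) (bF W) π
    rw [sub_zero] at h3
    rw [← h3]
    exact intervalIntegral.integral_congr fun x _ => bR_sft h x
  rwa [e] at h2

theorem BP_nonneg {W : ℝ → ℝ} {l K : ℝ} (h : OddE W l) (hK : Lip K W) {δ : ℝ} (hδ : 0 < δ)
    (hv : ∀ x, |x - π| ≤ δ → W x = 0) : 0 ≤ BP W l := by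
  have hpi := Real.pi_pos
  have ht : 0 < Real.tan (π / 2 / 2) := Real.tan_pos_of_pos_of_lt_pi_div_two
    (by linarith) (by linarith)
  refine le_trans ?_ (BP_ge h hK hδ hv (θ := π / 2) (by linarith) (by linarith))
  positivity

end Pool.Agent.H53.DE
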