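import Pool.Agent.H53.DE.KerF
import Pool.Agent.H90.DC.Lim

/-!
# DE: truncation and passage to the limit

`Vn W n = shr (1/(n+1)) ∘ W` with the soft threshold `shr ε t = (t-ε)⁺ - (-t-ε)⁺`: same Lipschitz constant,
same signs, `|Vn W n| ≤ |W|`, `Vn W n = 0` where `|W| ≤ 1/(n+1)`, in particular near every zero of `W`.
-/

set_option autoImplicit false
open Real Set MeasureTheory Filter Topology

namespace Pool.Agent.H53.DE
open Pool.Agent.H45.FL Pool.Agent.H51.DG Pool.Agent.H45.DY Pool.Agent.H90.DC Pool.Agent.H90.DE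
open Pool.Agent.H12.DE

/-- soft threshold -/
noncomputable def shr (ε t : ℝ) : ℝ := max (t - ε) 0 - max (-t - ε) 0

theorem shr_neg (ε t : ℝ) : shr ε (-t) = -shr ε t := by
  unfold shr
  rw [neg_neg]
  ring

theorem shr_pos {ε t : ℝ} (hε : 0 ≤ ε) (h : 0 ≤ t) : shr ε t = max (t - ε) 0 := by
  unfold shr
  rw [max_eq_right (by linarith : -t - ε ≤ 0), sub_zero]

theorem shr_npos {ε t : ℝ} (hε : 0 ≤ ε) (h : t ≤ 0) : shr ε t = -max (-t - ε) 0 := by
  unfold shr
  rw [max_eq_right (by linarith : t - ε ≤ 0), zero_sub]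

theorem shr_zero {ε t : ℝ} (h : |t| ≤ ε) : shr ε t = 0 := by
  obtain ⟨h1, h2⟩ := abs_le.1 h
  unfold shr
  rw [max_eq_right (by linarith), max_eq_right (by linarith), sub_zero]

theorem shr_nonneg {ε t : ℝ} (hε : 0 ≤ ε) (h : 0 ≤ t) : 0 ≤ shr ε t := by
  rw [shr_pos hε h]
  exact le_max_right _ _

theorem shr_nonpos {ε t : ℝ} (hε : 0 ≤ ε) (h : t ≤ 0) : shr ε t ≤ 0 := by
  rw [shr_npos hε h]
  have := le_max_right (-t - ε) 0
  linarith

/-- `shr ε t = t - clamp` -/
theorem shr_eq {ε : ℝ} (hε : 0 ≤ ε) (t : ℝ) : shr ε t = t - max (-ε) (min ε t) := by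
  unfold shr
  rcases le_total t (-ε) with h | h
  · rw [max_eq_right (by linarith : t - ε ≤ 0), max_eq_left (by linarith : 0 ≤ -t - ε),
      min_eq_right (by linarith : t ≤ ε), max_eq_left h]
    ring
  · rcases le_total t ε with h' | h'
    · rw [max_eq_right (by linarith : t - ε ≤ 0), max_eq_right (by linarith : -t - ε ≤ 0),
        min_eq_right h', max_eq_right h]
      ring
    · rw [max_eq_left (by linarith : 0 ≤ t - ε), max_eq_right (by linarith : -t - ε ≤ 0),
        min_eq_left h', max_eq_right (by linarith : -ε ≤ ε)]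
      ring

theorem shr_sub {ε : ℝ} (hε : 0 ≤ ε) (t : ℝ) : |shr ε t - t| ≤ ε := by
  rw [shr_eq hε, sub_sub_cancel_left, abs_neg, abs_le]
  exact ⟨le_max_left _ _, max_le (by linarith) (min_le_left _ _)⟩

theorem shr_mono {ε s t : ℝ} (hε : 0 ≤ ε) (h : s ≤ t) : shr ε s ≤ shr ε t ∧ shr ε t - shr ε s ≤ t - s := by
  unfold shr
  have a1 : max (s - ε) 0 ≤ max (t - ε) 0 := max_le_max_right 0 (by linarith)
  have a2 : max (-t - ε) 0 ≤ max (-s - ε) 0 := max_le_max_right 0 (by linarith)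
  refine ⟨by linarith, ?_⟩
  rcases le_total (s - ε) 0 with h1 | h1 <;> rcases le_total (t - ε) 0 with h2 | h2 <;>
    rcases le_total (-s - ε) 0 with h3 | h3 <;> rcases le_total (-t - ε) 0 with h4 | h4 <;>
    simp only [max_eq_left, max_eq_right, h1, h2, h3, h4] <;> linarith

theorem shr_lip {ε : ℝ} (hε : 0 ≤ ε) (s t : ℝ) : |shr ε s - shr ε t| ≤ |s - t| := by
  rcases le_total s t with h | h
  · obtain ⟨h1, h2⟩ := shr_mono hε h
    rw [abs_sub_comm, abs_sub_comm s t, abs_of_nonneg (by linarith), abs_of_nonneg (by linarith)]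
    exact h2
  · obtain ⟨h1, h2⟩ := shr_mono hε h
    rw [abs_of_nonneg (by linarith), abs_of_nonneg (by linarith)]
    exact h2

noncomputable def ep (n : ℕ) : ℝ := 1 / ((n : ℝ) + 1)

theorem ep_pos (n : ℕ) : 0 < ep n := by
  unfold ep
  positivity

/-- truncated function -/
noncomputable def Vn (W : ℝ → ℝ) (n : ℕ) : ℝ → ℝ := fun x => shr (ep n) (W x)

theorem Vn_lip {W : ℝ → ℝ} {K : ℝ} (h : Lip K W) (n : ℕ) : Lip K (Vn W n) := fun x y =>
  (shr_lip (ep_pos n).le _ _).trans (h x y)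

theorem Vn_tendsto (W : ℝ → ℝ) (x : ℝ) : Tendsto (fun n : ℕ => Vn W n x) atTop (𝓝 (W x)) := by
  have h1 : Tendsto (fun n : ℕ => Vn W n x - W x) atTop (𝓝 0) := by
    refine squeeze_zero_norm (a := fun n : ℕ => ep n) (fun n => ?_)
      tendsto_one_div_add_atTop_nhds_zero_nat
    rw [Real.norm_eq_abs]
    exact shr_sub (ep_pos n).le (W x)
  have h2 := h1.add_const (W x)
  rw [zero_add] at h2
  refine h2.congr fun n => ?_
  ring

theorem Vn_odd {W : ℝ → ℝ} {l : ℝ} (h : OddE W l) (n : ℕ) : OddE (Vn W n) l where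
  per := fun x => by
    show shr (ep n) (W (x + 2 * π)) = shr (ep n) (W x)
    rw [h.per x]
  odd := fun x => by
    show shr (ep n) (W (-x)) = -shr (ep n) (W x)
    rw [h.odd x, shr_neg]
  l0 := h.l0
  l1 := h.l1
  neg := fun x hx => shr_nonpos (ep_pos n).le (h.neg x hx)
  pos := fun x hx => shr_nonneg (ep_pos n).le (h.pos x hx)

theorem Vn_zero {W : ℝ → ℝ} {K : ℝ} (h : Lip K W) (n : ℕ) {z : ℝ} (hz : W z = 0) {x : ℝ}
    (hx : |x - z| ≤ ep n / (K + 1)) : Vn W n x = 0 := by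
  have hK := h.nonneg
  apply shr_zero
  have h1 := h x z
  rw [hz, sub_zero] at h1
  calc |W x| ≤ K * |x - z| := h1
    _ ≤ (K + 1) * |x - z| := by
        have := abs_nonneg (x - z)
        nlinarith
    _ ≤ (K + 1) * (ep n / (K + 1)) := mul_le_mul_of_nonneg_left hx (by linarith)
    _ = ep n := by field_simp

theorem Vn_sft (W : ℝ → ℝ) (n : ℕ) : Vn (sft W) n = sft (Vn W n) := rfl

/-! ## The half functionals -/

/-- integrand -/
noncomputable def GI (c : ℝ) (V : ℝ → ℝ) (x : ℝ) : ℝ :=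
  V x * (2 * HT V x * (ct x ^ 2 / 4 + c) + UU V x * dPh x)

theorem GI_bound {K : ℝ} {V : ℝ → ℝ} (h : Lip K V) (hV : V 0 = 0) (c : ℝ) {x : ℝ} (h0 : 0 < x)
    (hxp : x ≤ π) :
    |GI c V x| ≤ (200 + 13 * |c - 1 / 4|) * K ^ 2 * (1 + |Real.log x|) := by
  have hK := h.nonneg
  have hpi4 := Real.pi_lt_d2
  have hlog : 0 ≤ |Real.log x| := abs_nonneg _
  obtain ⟨e1, e2⟩ := Lim_ph h0 hxp
  have h1 := Lim_core h hV h0 hxp
  have hWx : |V x| ≤ K * x := by
    have := h x 0
    rwa [hV, sub_zero, sub_zero, abs_of_pos h0] at this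
  have hHT := abs_HT_le h x
  have e1' : ct x ^ 2 / 4 + c = 1 / (4 * Real.sin (x / 2) ^ 2) + (c - 1 / 4) := by
    unfold Ph at e1
    linarith
  have e3 : GI c V x = V x * (2 * HT V x * (1 / (4 * Real.sin (x / 2) ^ 2)) +
        UU V x * (-(Real.cos (x / 2) / (4 * Real.sin (x / 2) ^ 3)))) +
        (c - 1 / 4) * (2 * (V x * HT V x)) := by
    unfold GI
    rw [e1', e2]
    ring
  rw [e3]
  refine (abs_add_le _ _).trans ?_
  rw [abs_mul, abs_mul (c - 1 / 4), abs_mul (2 : ℝ), abs_mul (V x) (HT V x),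
    abs_of_pos (by norm_num : (0:ℝ) < 2)]
  have h2 : |V x| * |HT V x| ≤ (K * 3.15) * (2 * K) :=
    mul_le_mul (hWx.trans (mul_le_mul_of_nonneg_left (by linarith) hK)) hHT (abs_nonneg _)
      (by positivity)
  have hc := abs_nonneg (c - 1 / 4)
  have h3 : |c - 1 / 4| * (2 * (|V x| * |HT V x|)) ≤ |c - 1 / 4| * (13 * K ^ 2) := by
    refine mul_le_mul_of_nonneg_left ?_ hc
    nlinarith [sq_nonneg K]
  have h4 : |c - 1 / 4| * (13 * K ^ 2) ≤ 13 * |c - 1 / 4| * K ^ 2 * (1 + |Real.log x|) := by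
    have : 0 ≤ 13 * |c - 1 / 4| * K ^ 2 * |Real.log x| := by positivity
    nlinarith
  calc _ ≤ 200 * K ^ 2 * (1 + |Real.log x|) + 13 * |c - 1 / 4| * K ^ 2 * (1 + |Real.log x|) :=
        add_le_add h1 (h3.trans h4)
    _ = _ := by ring

theorem GI_meas {K : ℝ} {V : ℝ → ℝ} (h : Lip K V) (c : ℝ) : Measurable (GI c V) := by
  have hWm : Measurable V := h.continuous.measurable
  have hHm : Measurable (HT V) := (continuous_HT h).measurable
  have hUm : Measurable (UU V) :=
    (continuous_iff_continuousAt.2 fun x => (hasDerivAt_UU h x).continuousAt).measurable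
  have hct : Measurable ct := SC_ct_meas
  have hdP : Measurable dPh := by
    unfold dPh
    exact ((hct.mul (measurable_const.add (hct.pow_const 2))).div_const 4).neg
  have hP : Measurable fun x => ct x ^ 2 / 4 + c := ((hct.pow_const 2).div_const 4).add_const _
  exact hWm.mul (((measurable_const.mul hHm).mul hP).add (hUm.mul hdP))

theorem GI_int {K : ℝ} {V : ℝ → ℝ} (h : Lip K V) (hV : V 0 = 0) (c : ℝ) {θ : ℝ} (h0 : 0 < θ)
    (h1 : θ ≤ π) : IntervalIntegrable (GI c V) volume 0 θ := by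
  have h2 : IntervalIntegrable (fun x : ℝ => (200 + 13 * |c - 1 / 4|) * K ^ 2 *
      (1 + |Real.log x|)) volume 0 θ := by
    apply IntervalIntegrable.const_mul
    have h1 : IntervalIntegrable (fun x : ℝ => Real.log x) volume 0 θ :=
      intervalIntegral.intervalIntegrable_log'
    exact intervalIntegrable_const.add h1.abs
  refine h2.mono_fun' (GI_meas h c).aestronglyMeasurable ?_
  rw [uIoc_of_le h0.le]
  refine ae_restrict_of_forall_mem measurableSet_Ioc fun x hx => ?_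
  show ‖GI c V x‖ ≤ _
  rw [Real.norm_eq_abs]
  exact GI_bound h hV c hx.1 (hx.2.trans h1)

theorem GI_tendsto {K : ℝ} {V : ℕ → ℝ → ℝ} {W : ℝ → ℝ} (hn : ∀ n, Lip K (V n))
    (ht : ∀ x, Tendsto (fun n => V n x) atTop (𝓝 (W x))) (h0 : ∀ n, V n 0 = 0) (c : ℝ)
    {θ : ℝ} (hθ : 0 < θ) (hθ' : θ ≤ π) :
    Tendsto (fun n : ℕ => ∫ x in (0:ℝ)..θ, GI c (V n) x) atTop (𝓝 (∫ x in (0:ℝ)..θ, GI c W x)) := by
  refine intervalIntegral.tendsto_integral_filter_of_dominated_convergence
    (fun x : ℝ => (200 + 13 * |c - 1 / 4|) * K ^ 2 * (1 + |Real.log x|)) ?_ ?_ ?_ ?_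
  · exact Filter.Eventually.of_forall fun n => (GI_meas (hn n) c).aestronglyMeasurable
  · refine Filter.Eventually.of_forall fun n => Filter.Eventually.of_forall fun x hx => ?_
    rw [Set.uIoc_of_le hθ.le] at hx
    rw [Real.norm_eq_abs]
    exact GI_bound (hn n) (h0 n) c hx.1 (hx.2.trans hθ')
  · apply IntervalIntegrable.const_mul
    have h1 : IntervalIntegrable (fun x : ℝ => Real.log x) volume 0 θ :=
      intervalIntegral.intervalIntegrable_log'
    exact intervalIntegrable_const.add h1.abs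
  · refine Filter.Eventually.of_forall fun x _ => ?_
    exact (ht x).mul ((((HT_tendsto hn ht x).const_mul 2).mul_const _).add
      ((UU_tendsto hn ht x).mul_const _))

theorem BN_GI (W : ℝ → ℝ) (l : ℝ) : BN W l = ∫ x in (0:ℝ)..l, GI (1 / 4) W x := rfl

theorem BN_tendsto {W : ℝ → ℝ} {l K : ℝ} (h : OddE W l) (hK : Lip K W) :
    Tendsto (fun n : ℕ => BN (Vn W n) l) atTop (𝓝 (BN W l)) := by
  simp only [BN_GI]
  exact GI_tendsto (fun n => Vn_lip hK n) (Vn_tendsto W) (fun n => OE_w0 (Vn_odd h n)) _ h.l0 h.l1.le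

theorem BP_tendsto {W : ℝ → ℝ} {l K : ℝ} (h : OddE W l) (hK : Lip K W) :
    Tendsto (fun n : ℕ => BP (Vn W n) l) atTop (𝓝 (BP W l)) := by
  have h1 := BN_tendsto (OE_sft h) (sft_lip hK)
  rw [BN_sft h hK] at h1
  refine h1.congr fun n => ?_
  rw [Vn_sft, BN_sft (Vn_odd h n) (Vn_lip hK n)]

/-! ## `TF` -/

/-- right and left half, seen from `l` -/
def rgt (W : ℝ → ℝ) (l : ℝ) : ℝ → ℝ := fun y => W (l + y)
def lft (W : ℝ → ℝ) (l : ℝ) : ℝ → ℝ := fun y => W (l - y)

theorem rgt_lip {W : ℝ → ℝ} {K : ℝ} (h : Lip K W) (l : ℝ) : Lip K (rgt W l) := by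
  intro x y
  have := h (l + x) (l + y)
  rwa [add_sub_add_left_eq_sub] at this

theorem lft_lip {W : ℝ → ℝ} {K : ℝ} (h : Lip K W) (l : ℝ) : Lip K (lft W l) := by
  intro x y
  have := h (l - x) (l - y)
  rw [sub_sub_sub_cancel_left, abs_sub_comm y x] at this
  exact this

theorem HT_rgt (W : ℝ → ℝ) (l x : ℝ) : HT (rgt W l) x = HT W (l + x) := HTd_shift W l x

theorem HT_lft (W : ℝ → ℝ) (l x : ℝ) : HT (lft W l) x = -HT W (l - x) := by
  unfold HT
  rw [← mul_neg, ← intervalIntegral.integral_neg]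
  congr 1
  refine intervalIntegral.integral_congr fun s _ => ?_
  show (W (l - (x - s)) - W (l - (x + s))) * _ = -((W (l - x - s) - W (l - x + s)) * _)
  rw [show l - (x - s) = l - x + s by ring, show l - (x + s) = l - x - s by ring]
  ring

theorem UU_rgt {W : ℝ → ℝ} {K : ℝ} (h : Lip K W) (l x : ℝ) :
    UU (rgt W l) x = UU W (l + x) - UU W l := by
  have hc : Continuous (HT W) := continuous_HT h
  have e : UU (rgt W l) x = ∫ y in (0:ℝ)..x, HT W (l + y) := by
    unfold UU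
    exact intervalIntegral.integral_congr fun y _ => HT_rgt W l y
  rw [e, intervalIntegral.integral_comp_add_left (fun y => HT W y), add_zero]
  unfold UU
  rw [← intervalIntegral.integral_interval_sub_left (hc.intervalIntegrable 0 (l + x))
    (hc.intervalIntegrable 0 l)]

theorem UU_lft {W : ℝ → ℝ} {K : ℝ} (h : Lip K W) (l x : ℝ) :
    UU (lft W l) x = UU W (l - x) - UU W l := by
  have hc : Continuous (HT W) := continuous_HT h
  have e : UU (lft W l) x = -∫ y in (0:ℝ)..x, HT W (l - y) := by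
    unfold UU
    rw [← intervalIntegral.integral_neg]
    exact intervalIntegral.integral_congr fun y _ => HT_lft W l y
  rw [e, intervalIntegral.integral_comp_sub_left (fun y => HT W y), sub_zero]
  unfold UU
  rw [← intervalIntegral.integral_interval_sub_left (hc.intervalIntegrable 0 l)
    (hc.intervalIntegrable 0 (l - x))]
  ring

theorem TF_GI {W : ℝ → ℝ} {l K : ℝ} (hK : Lip K W) :
    TF W l = (∫ y in (0:ℝ)..l, GI 0 (lft W l) y) + ∫ y in (0:ℝ)..(π - l), GI 0 (rgt W l) y := by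
  unfold TF
  congr 1
  · have h1 := intervalIntegral.integral_comp_sub_left (a := 0) (b := l)
      (fun x => -W x * (2 * HT W x * Pc (l - x) - (UU W x - UU W l) * dPh (l - x))) l
    rw [sub_zero, sub_self] at h1
    rw [← h1]
    refine intervalIntegral.integral_congr fun y _ => ?_
    show -W (l - y) * (2 * HT W (l - y) * Pc (l - (l - y)) -
      (UU W (l - y) - UU W l) * dPh (l - (l - y))) = GI 0 (lft W l) y
    unfold GI
    rw [HT_lft, UU_lft hK, sub_sub_cancel]
    unfold Pc lft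
    ring
  · have h1 := intervalIntegral.integral_comp_add_left (a := 0) (b := π - l)
      (fun x => W x * (2 * HT W x * Pc (x - l) + (UU W x - UU W l) * dPh (x - l))) l
    rw [add_zero, add_sub_cancel] at h1
    rw [← h1]
    refine intervalIntegral.integral_congr fun y _ => ?_
    show W (l + y) * (2 * HT W (l + y) * Pc (l + y - l) +
      (UU W (l + y) - UU W l) * dPh (l + y - l)) = GI 0 (rgt W l) y
    unfold GI
    rw [HT_rgt, UU_rgt hK, add_sub_cancel_left]
    unfold Pc rgt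
    ring

theorem TF_tendsto {W : ℝ → ℝ} {l K : ℝ} (h : OddE W l) (hK : Lip K W) :
    Tendsto (fun n : ℕ => TF (Vn W n) l) atTop (𝓝 (TF W l)) := by
  rw [TF_GI hK]
  have e : (fun n : ℕ => TF (Vn W n) l) = fun n : ℕ =>
      (∫ y in (0:ℝ)..l, GI 0 (lft (Vn W n) l) y) + ∫ y in (0:ℝ)..(π - l), GI 0 (rgt (Vn W n) l) y := by
    funext n
    exact TF_GI (Vn_lip hK n)
  rw [e]
  refine Tendsto.add ?_ ?_
  · refine GI_tendsto (fun n => lft_lip (Vn_lip hK n) l) (fun x => Vn_tendsto W (l - x)) ?_ _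
      h.l0 h.l1.le
    intro n
    show Vn W n (l - 0) = 0
    rw [sub_zero]
    exact OE_wl (Vn_odd h n)
  · refine GI_tendsto (fun n => rgt_lip (Vn_lip hK n) l) (fun x => Vn_tendsto W (l + x)) ?_ _
      (sub_pos.2 h.l1) (by linarith [h.l0])
    intro n
    show Vn W n (l + 0) = 0
    rw [add_zero]
    exact OE_wl (Vn_odd h n)

/-! ## Vanishing functions, perturbation of `l` -/

/-- Lipschitz, vanishing near `0`, `l`, `π` -/
structure VanA (W : ℝ → ℝ) (l : ℝ) : Prop extends OddE W l where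
  lip : ∃ K, Lip K W
  van : ∃ δ : ℝ, 0 < δ ∧ (∀ x, |x| ≤ δ → W x = 0) ∧ (∀ x, |x - l| ≤ δ → W x = 0) ∧
    ∀ x, |x - π| ≤ δ → W x = 0

theorem VanA.toVanE {W : ℝ → ℝ} {l : ℝ} (h : VanA W l) : VanE W l where
  toOddE := h.toOddE
  lip := h.lip
  van := by
    obtain ⟨δ, h1, -, h2, -⟩ := h.van
    exact ⟨δ, h1, h2⟩

theorem Vn_van {W : ℝ → ℝ} {l K : ℝ} (h : OddE W l) (hK : Lip K W) (n : ℕ) : VanA (Vn W n) l where
  toOddE := Vn_odd h n
  lip := ⟨K, Vn_lip hK n⟩
  van := by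
    have hK0 := hK.nonneg
    refine ⟨ep n / (K + 1), div_pos (ep_pos n) (by linarith), fun x hx => ?_, fun x hx => ?_,
      fun x hx => ?_⟩
    · exact Vn_zero hK n (OE_w0 h) (by rwa [sub_zero])
    · exact Vn_zero hK n (OE_wl h) hx
    · exact Vn_zero hK n (OE_wpi h) hx

/-- moving `l` to the left -/
theorem VanA.move {W : ℝ → ℝ} {l δ s : ℝ} (h : VanA W l) (hδ : 0 < δ)
    (v0 : ∀ x, |x| ≤ δ → W x = 0) (vl : ∀ x, |x - l| ≤ δ → W x = 0)
    (vp : ∀ x, |x - π| ≤ δ → W x = 0) (hs : 0 ≤ s) (hs1 : s ≤ δ / 2) (hs2 : s < l) :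
    VanA W (l - s) where
  per := h.per
  odd := h.odd
  l0 := by linarith
  l1 := by linarith [h.l1]
  neg := fun x hx => h.neg x ⟨hx.1, by linarith [hx.2]⟩
  pos := fun x hx => by
    rcases le_total x l with h1 | h1
    · rw [vl x (abs_le.2 ⟨by linarith [hx.1], by linarith⟩)]
    · exact h.pos x ⟨h1, hx.2⟩
  lip := h.lip
  van := by
    refine ⟨δ / 2, by linarith, fun x hx => v0 x (by linarith), fun x hx => ?_,
      fun x hx => vp x (by linarith)⟩
    rw [abs_le] at hx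
    exact vl x (abs_le.2 ⟨by linarith [hx.1], by linarith [hx.2]⟩)

theorem BN_move {W : ℝ → ℝ} {l δ s : ℝ} (h : VanA W l)
    (vl : ∀ x, |x - l| ≤ δ → W x = 0) (hs : 0 ≤ s) (hs1 : s ≤ δ / 2) (hs2 : s < l) :
    BN W (l - s) = BN W l := by
  obtain ⟨K, hK⟩ := h.lip
  have hl0 := h.l0
  have hl1 := h.l1
  have i1 : IntervalIntegrable (GI (1 / 4) W) volume 0 (l - s) :=
    GI_int hK (OE_w0 h.toOddE) _ (by linarith) (by linarith)
  have i2 : IntervalIntegrable (GI (1 / 4) W) volume 0 l :=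
    GI_int hK (OE_w0 h.toOddE) _ h.l0 h.l1.le
  have h1 := intervalIntegral.integral_add_adjacent_intervals i1 (i1.symm.trans i2)
  have h2 : ∫ x in (l - s)..l, GI (1 / 4) W x = 0 := by
    have h3 : ∫ x in (l - s)..l, GI (1 / 4) W x = ∫ x in (l - s)..l, (0:ℝ) := by
      refine intervalIntegral.integral_congr fun x hx => ?_
      rw [uIcc_of_le (by linarith)] at hx
      show W x * _ = 0
      rw [vl x (abs_le.2 ⟨by linarith [hx.1], by linarith [hx.2]⟩), zero_mul]
    rw [h3, intervalIntegral.integral_zero]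
  rw [BN_GI, BN_GI, ← h1, h2, add_zero]

theorem BP_move {W : ℝ → ℝ} {l δ s : ℝ} (h : VanA W l)
    (vl : ∀ x, |x - l| ≤ δ → W x = 0) (hs : 0 ≤ s) (hs1 : s ≤ δ / 2) (hs2 : s < l)
    (h' : OddE W (l - s)) : BP W (l - s) = BP W l := by
  obtain ⟨K, hK⟩ := h.lip
  have hl0 := h.l0
  have hl1 := h.l1
  rw [← BN_sft h' hK, ← BN_sft h.toOddE hK, BN_GI, BN_GI]
  have hK' := sft_lip hK
  have i1 : IntervalIntegrable (GI (1 / 4) (sft W)) volume 0 (π - l) :=
    GI_int hK' (OE_w0 (OE_sft h.toOddE)) _ (by linarith) (by linarith)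
  have i2 : IntervalIntegrable (GI (1 / 4) (sft W)) volume 0 (π - (l - s)) :=
    GI_int hK' (OE_w0 (OE_sft h.toOddE)) _ (by linarith) (by linarith)
  have h1 := intervalIntegral.integral_add_adjacent_intervals i1 (i1.symm.trans i2)
  have h2 : ∫ x in (π - l)..(π - (l - s)), GI (1 / 4) (sft W) x = 0 := by
    have h3 : ∫ x in (π - l)..(π - (l - s)), GI (1 / 4) (sft W) x =
        ∫ x in (π - l)..(π - (l - s)), (0:ℝ) := by
      refine intervalIntegral.integral_congr fun x hx => ?_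
      rw [uIcc_of_le (by linarith)] at hx
      show sft W x * _ = 0
      rw [sft_apply, OE_refl_add h.toOddE,
        vl (π - x) (abs_le.2 ⟨by linarith [hx.1, hx.2], by linarith [hx.1, hx.2]⟩), neg_zero,
        zero_mul]
    rw [h3, intervalIntegral.integral_zero]
  rw [← h1, h2, add_zero]

/-- the half integrals of `TF W (l-s)` may be extended to the limits of `l` -/
theorem TF_move {W : ℝ → ℝ} {l δ s : ℝ} (h : VanA W l)
    (v0 : ∀ x, |x| ≤ δ → W x = 0) (vl : ∀ x, |x - l| ≤ δ → W x = 0)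
    (vp : ∀ x, |x - π| ≤ δ → W x = 0) (hs : 0 ≤ s) (hs1 : s ≤ δ / 2) (hs2 : s < l) :
    TF W (l - s) = (∫ y in (0:ℝ)..l, GI 0 (lft W (l - s)) y) +
      ∫ y in (0:ℝ)..(π - l), GI 0 (rgt W (l - s)) y := by
  obtain ⟨K, hK⟩ := h.lip
  have hl0 := h.l0
  have hl1 := h.l1
  rw [TF_GI hK]
  have z1 : lft W (l - s) 0 = 0 := by
    show W (l - s - 0) = 0
    exact vl _ (abs_le.2 ⟨by linarith, by linarith⟩)
  have z2 : rgt W (l - s) 0 = 0 := by
    show W (l - s + 0) = 0
    exact vl _ (abs_le.2 ⟨by linarith, by linarith⟩)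
  congr 1
  · have i1 : IntervalIntegrable (GI 0 (lft W (l - s))) volume 0 (l - s) :=
      GI_int (lft_lip hK _) z1 _ (by linarith) (by linarith)
    have i2 : IntervalIntegrable (GI 0 (lft W (l - s))) volume 0 l :=
      GI_int (lft_lip hK _) z1 _ (by linarith) (by linarith)
    have h1 := intervalIntegral.integral_add_adjacent_intervals i1 (i1.symm.trans i2)
    have h2 : ∫ x in (l - s)..l, GI 0 (lft W (l - s)) x = 0 := by
      have h3 : ∫ x in (l - s)..l, GI 0 (lft W (l - s)) x = ∫ x in (l - s)..l, (0:ℝ) := by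
        refine intervalIntegral.integral_congr fun x hx => ?_
        rw [uIcc_of_le (by linarith)] at hx
        show W (l - s - x) * _ = 0
        rw [v0 _ (abs_le.2 ⟨by linarith [hx.1, hx.2], by linarith [hx.1, hx.2]⟩), zero_mul]
      rw [h3, intervalIntegral.integral_zero]
    rw [← h1, h2, add_zero]
  · have i1 : IntervalIntegrable (GI 0 (rgt W (l - s))) volume 0 (π - l) :=
      GI_int (rgt_lip hK _) z2 _ (by linarith) (by linarith)
    have i2 : IntervalIntegrable (GI 0 (rgt W (l - s))) volume 0 (π - (l - s)) :=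
      GI_int (rgt_lip hK _) z2 _ (by linarith) (by linarith)
    have h1 := intervalIntegral.integral_add_adjacent_intervals i1 (i1.symm.trans i2)
    have h2 : ∫ x in (π - l)..(π - (l - s)), GI 0 (rgt W (l - s)) x = 0 := by
      have h3 : ∫ x in (π - l)..(π - (l - s)), GI 0 (rgt W (l - s)) x =
          ∫ x in (π - l)..(π - (l - s)), (0:ℝ) := by
        refine intervalIntegral.integral_congr fun x hx => ?_
        rw [uIcc_of_le (by linarith)] at hx
        show W (l - s + x) * _ = 0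
        rw [vp _ (abs_le.2 ⟨by linarith [hx.1, hx.2], by linarith [hx.1, hx.2]⟩), zero_mul]
      rw [h3, intervalIntegral.integral_zero]
    rw [← h1, h2, add_zero]

/-! ## `EFEk` -/

theorem Vn_bF_le (W : ℝ → ℝ) (n : ℕ) (x : ℝ) : |bF (Vn W n) x| ≤ |bF W x| := by
  have he := (ep_pos n).le
  show |max (shr (ep n) (W x)) 0| ≤ |max (W x) 0|
  rw [abs_of_nonneg (le_max_right _ _), abs_of_nonneg (le_max_right _ _)]
  rcases le_total 0 (W x) with h | h
  · rw [shr_pos he h, max_eq_left h]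
    exact max_le (max_le (by linarith) h) h
  · rw [max_eq_right (shr_nonpos he h), max_eq_right h]

theorem Vn_bR_le (W : ℝ → ℝ) (n : ℕ) (x : ℝ) : |bR (Vn W n) x| ≤ |bR W x| := by
  have := Vn_bF_le (fun x => -W x) n x
  have e1 : bF (Vn (fun x => -W x) n) x = bR (Vn W n) x := by
    show max (shr (ep n) (-W x)) 0 = max (-shr (ep n) (W x)) 0
    rw [shr_neg]
  rwa [e1, bF_neg] at this

theorem Vn_bF_tendsto (W : ℝ → ℝ) (x : ℝ) :
    Tendsto (fun n : ℕ => bF (Vn W n) x) atTop (𝓝 (bF W x)) :=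
  (Vn_tendsto W x).max tendsto_const_nhds

theorem Vn_bR_tendsto (W : ℝ → ℝ) (x : ℝ) :
    Tendsto (fun n : ℕ => bR (Vn W n) x) atTop (𝓝 (bR W x)) :=
  (Vn_tendsto W x).neg.max tendsto_const_nhds

theorem EFEk_tendsto {W : ℝ → ℝ} {l K : ℝ} (h : OddE W l) (hK : Lip K W) :
    Tendsto (fun n : ℕ => EFEk (Vn W n)) atTop (𝓝 (EFEk W)) := by
  obtain ⟨i1, i2, i3⟩ := EFEk_int h hK
  unfold EFEk
  refine Tendsto.const_mul _ ((Tendsto.sub ?_ ?_).add (Tendsto.const_mul 2 ?_))
  · refine tendsto_integral_of_dominated_convergence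
      (fun z : ℝ × ℝ => ‖bF W z.1 * bF W z.2 * ct (z.1 + z.2) ^ 3‖) ?_ i1.norm ?_ ?_
    · exact fun n => (EFEk_int (Vn_odd h n) (Vn_lip hK n)).1.aestronglyMeasurable
    · refine fun n => Filter.Eventually.of_forall fun z => ?_
      rw [norm_mul, norm_mul, norm_mul, norm_mul]
      have h1 : ‖bF (Vn W n) z.1‖ ≤ ‖bF W z.1‖ := Vn_bF_le W n z.1
      have h2 : ‖bF (Vn W n) z.2‖ ≤ ‖bF W z.2‖ := Vn_bF_le W n z.2
      gcongr
    · refine Filter.Eventually.of_forall fun z => ?_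
      exact ((Vn_bF_tendsto W z.1).mul (Vn_bF_tendsto W z.2)).mul_const _
  · refine tendsto_integral_of_dominated_convergence
      (fun z : ℝ × ℝ => ‖bR W z.1 * bR W z.2 * ct (z.1 + z.2) ^ 3‖) ?_ i2.norm ?_ ?_
    · exact fun n => (EFEk_int (Vn_odd h n) (Vn_lip hK n)).2.1.aestronglyMeasurable
    · refine fun n => Filter.Eventually.of_forall fun z => ?_
      rw [norm_mul, norm_mul, norm_mul, norm_mul]
      have h1 : ‖bR (Vn W n) z.1‖ ≤ ‖bR W z.1‖ := Vn_bR_le W n z.1
      have h2 : ‖bR (Vn W n) z.2‖ ≤ ‖bR W z.2‖ := Vn_bR_le W n z.2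
      gcongr
    · refine Filter.Eventually.of_forall fun z => ?_
      exact ((Vn_bR_tendsto W z.1).mul (Vn_bR_tendsto W z.2)).mul_const _
  · refine tendsto_integral_of_dominated_convergence
      (fun z : ℝ × ℝ => ‖bF W z.1 * bR W z.2 * ct (z.1 - z.2) ^ 3‖) ?_ i3.norm ?_ ?_
    · exact fun n => (EFEk_int (Vn_odd h n) (Vn_lip hK n)).2.2.aestronglyMeasurable
    · refine fun n => Filter.Eventually.of_forall fun z => ?_
      rw [norm_mul, norm_mul, norm_mul, norm_mul]
      have h1 : ‖bF (Vn W n) z.1‖ ≤ ‖bF W z.1‖ := Vn_bF_le W n z.1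
      have h2 : ‖bR (Vn W n) z.2‖ ≤ ‖bR W z.2‖ := Vn_bR_le W n z.2
      gcongr
    · refine Filter.Eventually.of_forall fun z => ?_
      exact ((Vn_bF_tendsto W z.1).mul (Vn_bR_tendsto W z.2)).mul_const _

/-! ## The reduction -/

/-- from `l < π/2` to `l ≤ π/2` for vanishing functions -/
theorem reduce1 {κ K0 : ℝ} (H : ∀ (V : ℝ → ℝ) (l : ℝ), VanA V l → l < π / 2 →
      κ * EFEk V ≤ TF V l + K0 * (BN V l + BP V l))
    {V : ℝ → ℝ} {l : ℝ} (h : VanA V l) : l ≤ π / 2 → 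
      κ * EFEk V ≤ TF V l + K0 * (BN V l + BP V l) := by
  intro hl
  obtain ⟨K, hK⟩ := h.lip
  obtain ⟨δ, hδ, v0, vl, vp⟩ := h.van
  have hl0 := h.l0
  have hl1 := h.l1
  obtain ⟨m, hmd⟩ : ∃ m, m = min (δ / 2) (l / 2) := ⟨_, rfl⟩
  have hm : 0 < m := by rw [hmd]; exact lt_min (by linarith) (by linarith)
  have hm1 : m ≤ δ / 2 := by rw [hmd]; exact min_le_left _ _
  have hm2 : m ≤ l / 2 := by rw [hmd]; exact min_le_right _ _
  obtain ⟨s, hsd⟩ : ∃ s : ℕ → ℝ, s = fun n => m * ep n := ⟨_, rfl⟩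
  have hs0 : ∀ n, 0 < s n := fun n => by rw [hsd]; exact mul_pos hm (ep_pos n)
  have hep1 : ∀ n, ep n ≤ 1 := fun n => by
    unfold ep
    rw [div_le_one (by positivity)]
    have : (0:ℝ) ≤ n := Nat.cast_nonneg n
    linarith
  have hsm : ∀ n, s n ≤ m := fun n => by
    rw [hsd]
    show m * ep n ≤ m
    have := hep1 n
    nlinarith
  have hst : Tendsto s atTop (𝓝 0) := by
    rw [hsd]
    have := (tendsto_one_div_add_atTop_nhds_zero_nat (𝕜 := ℝ)).const_mul m
    rwa [mul_zero] at this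
  have hlt : Tendsto (fun n => l - s n) atTop (𝓝 l) := by
    have := hst.const_sub l
    rwa [sub_zero] at this
  have hcont : Continuous V := hK.continuous
  have hT : Tendsto (fun n => TF V (l - s n)) atTop (𝓝 (TF V l)) := by
    have e : ∀ n, TF V (l - s n) = (∫ y in (0:ℝ)..l, GI 0 (lft V (l - s n)) y) +
        ∫ y in (0:ℝ)..(π - l), GI 0 (rgt V (l - s n)) y := fun n =>
      TF_move h v0 vl vp (hs0 n).le ((hsm n).trans hm1) (by linarith [hsm n])
    simp only [e]
    rw [TF_GI hK]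
    refine Tendsto.add ?_ ?_
    · refine GI_tendsto (fun n => lft_lip hK _) (fun x => ?_) (fun n => ?_) _ h.l0 h.l1.le
      · exact (hcont.tendsto (l - x)).comp (hlt.sub_const x)
      · show V (l - s n - 0) = 0
        exact vl _ (abs_le.2 ⟨by linarith [hsm n, hs0 n], by linarith [hsm n, hs0 n]⟩)
    · refine GI_tendsto (fun n => rgt_lip hK _) (fun x => ?_) (fun n => ?_) _
        (sub_pos.2 h.l1) (by linarith [h.l0])
      · exact (hcont.tendsto (l + x)).comp (hlt.add_const x)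
      · show V (l - s n + 0) = 0
        exact vl _ (abs_le.2 ⟨by linarith [hsm n, hs0 n], by linarith [hsm n, hs0 n]⟩)
  refine ge_of_tendsto (hT.add_const (K0 * (BN V l + BP V l))) (Filter.Eventually.of_forall fun n => ?_)
  have hv : VanA V (l - s n) := h.move hδ v0 vl vp (hs0 n).le ((hsm n).trans hm1)
    (by linarith [hsm n])
  have h1 := H V (l - s n) hv (by linarith [hs0 n])
  rw [BN_move h vl (hs0 n).le ((hsm n).trans hm1) (by linarith [hsm n]),
    BP_move h vl (hs0 n).le ((hsm n).trans hm1) (by linarith [hsm n]) hv.toOddE] at h1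
  exact h1

/-- **reduction of the static inequality** to functions vanishing near `0`, `l`, `π`, `l < π/2` -/
theorem reduceE {κ K0 : ℝ} (H : ∀ (V : ℝ → ℝ) (l : ℝ), VanA V l → l < π / 2 →
      κ * EFEk V ≤ TF V l + K0 * (BN V l + BP V l))
    {W : ℝ → ℝ} {l : ℝ} (h : OddE W l) (hs : ContDiff ℝ 2 W) :
    κ * EFE W l ≤ TF W l + K0 * (BN W l + BP W l) := by
  have key : ∀ {W : ℝ → ℝ} {l : ℝ}, OddE W l → ContDiff ℝ 2 W → l ≤ π / 2 →
      κ * EFE W l ≤ TF W l + K0 * (BN W l + BP W l) := by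
    intro W l h hs hl
    obtain ⟨K, hK⟩ := lip_of_contDiff h.per (hs.of_le (by norm_num))
    rw [EFE_kernel h hs]
    refine le_of_tendsto_of_tendsto' ((EFEk_tendsto h hK).const_mul κ)
      ((TF_tendsto h hK).add (((BN_tendsto h hK).add (BP_tendsto h hK)).const_mul K0)) fun n => ?_
    exact reduce1 H (Vn_van h hK n) hl
  rcases le_total l (π / 2) with hl | hl
  · exact key h hs hl
  · obtain ⟨K, hK⟩ := lip_of_contDiff h.per (hs.of_le (by norm_num))
    have h1 := key (OE_sft h) (sft_contDiff hs) (by linarith)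
    rw [EFE_sft h, TF_sft h hK, BN_sft h hK, BP_sft h hK, add_comm (BP W l)] at h1
    exact h1

end Pool.Agent.H53.DE
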