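import Pool.Agent.H53.DE.Sym
import Pool.Agent.H90.DC.EKer
import Pool.Agent.H90.DC.JKer

/-!
# DE: kernel form of the derivative of the energy, class (E)
-/

set_option autoImplicit false
open Real Set MeasureTheory Filter Topology

namespace Pool.Agent.H53.DE
open Pool.Agent.H45.FL Pool.Agent.H51.DG Pool.Agent.H45.DY Pool.Agent.H90.DC Pool.Agent.H90.DE

/-- point reflection of the square `(0,π)²` -/
noncomputable def Rpi (z : ℝ × ℝ) : ℝ × ℝ :=
  Prod.map (fun x : ℝ => π - x) (fun x : ℝ => π - x) z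

theorem Rpi_mp : MeasurePreserving Rpi (volume : Measure (ℝ × ℝ)) volume :=
  (Measure.measurePreserving_sub_left volume π).prod (Measure.measurePreserving_sub_left volume π)

theorem Rpi_me : MeasurableEmbedding Rpi :=
  (MeasurableEquiv.subLeft π).measurableEmbedding.prodMap
    (MeasurableEquiv.subLeft π).measurableEmbedding

theorem Rpi_pre : Rpi ⁻¹' Sq1 = Sq1 := by
  ext z
  constructor
  · rintro ⟨h1, h2⟩
    have h3 : 0 < π - z.1 := h1.1
    have h4 : π - z.1 < π := h1.2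
    have h5 : 0 < π - z.2 := h2.1
    have h6 : π - z.2 < π := h2.2
    exact ⟨⟨by linarith, by linarith⟩, ⟨by linarith, by linarith⟩⟩
  · rintro ⟨h1, h2⟩
    have h3 : 0 < z.1 := h1.1
    have h4 : z.1 < π := h1.2
    have h5 : 0 < z.2 := h2.1
    have h6 : z.2 < π := h2.2
    refine ⟨⟨?_, ?_⟩, ⟨?_, ?_⟩⟩
    · show 0 < π - z.1
      linarith
    · show π - z.1 < π
      linarith
    · show 0 < π - z.2
      linarith
    · show π - z.2 < π
      linarith

theorem Rpi_integral (f : ℝ × ℝ → ℝ) : ∫ z in Sq1, f (Rpi z) = ∫ z in Sq1, f z := by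
  have := Rpi_mp.setIntegral_preimage_emb Rpi_me f Sq1
  rwa [Rpi_pre] at this

theorem Rpi_int {f : ℝ × ℝ → ℝ} (h : IntegrableOn f Sq1) :
    IntegrableOn (fun z => f (Rpi z)) Sq1 := by
  have := (Rpi_mp.integrableOn_comp_preimage Rpi_me (f := f) (s := Sq1)).2 h
  rwa [Rpi_pre] at this

theorem OE_negC {W : ℝ → ℝ} {l : ℝ} (h : OddE W l) : OddC (fun x => -W x) l where
  per := fun x => by
    show -W (x + 2 * π) = -W x
    rw [h.per x]
  odd := fun x => by
    show -W (-x) = - -W x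
    rw [h.odd x]
  l0 := h.l0
  l1 := h.l1
  pos := fun x hx => by
    have := h.neg x hx
    show 0 ≤ -W x
    linarith
  neg := fun x hx => by
    have := h.pos x hx
    show -W x ≤ 0
    linarith

theorem neg_lip {W : ℝ → ℝ} {K : ℝ} (h : Lip K W) : Lip K (fun x => -W x) := by
  intro x y
  have := h y x
  rw [abs_sub_comm y x] at this
  show |-W x - -W y| ≤ _
  rw [show -W x - -W y = W y - W x by ring]
  exact this

theorem bF_neg (W : ℝ → ℝ) : bF (fun x => -W x) = bR W := rfl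

theorem bR_neg (W : ℝ → ℝ) : bR (fun x => -W x) = bF W := by
  funext x
  show max (- -W x) 0 = max (W x) 0
  rw [neg_neg]

theorem bR_sft {W : ℝ → ℝ} {l : ℝ} (h : OddE W l) (x : ℝ) : bR (sft W) x = bF W (π - x) := by
  show max (-W (x + π)) 0 = max (W (π - x)) 0
  rw [OE_refl_add h, neg_neg]

theorem bF_sft {W : ℝ → ℝ} {l : ℝ} (h : OddE W l) (x : ℝ) : bF (sft W) x = bR W (π - x) := by
  show max (W (x + π)) 0 = max (-W (π - x)) 0
  rw [OE_refl_add h]

theorem csk_refl (s : ℝ) : csk (2 * π - s) = -csk s := by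
  unfold csk
  rw [show (2 * π - s) / 2 = π - s / 2 by ring, Real.sin_pi_sub, Real.cos_pi_sub, neg_div]

theorem csk_sub_ct (z : ℝ) : csk z - ct z = ct z ^ 3 := by
  unfold csk ct
  by_cases h : Real.sin (z / 2) = 0
  · rw [h]
    simp
  · have h1 := Real.sin_sq_add_cos_sq (z / 2)
    have h2 : Real.cos (z / 2) ^ 2 = 1 - Real.sin (z / 2) ^ 2 := by linarith
    field_simp
    rw [← h2]
    ring

/-- `EF` of `-W` -/
theorem EF_neg (W : ℝ → ℝ) (l : ℝ) :
    EF (fun x => -W x) l = 2 * ∫ x in (0:ℝ)..l, deriv W x * HT (deriv W) x := by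
  unfold EF
  have e : deriv (fun x => -W x) = fun x => -deriv W x := by
    funext x
    exact deriv.fun_neg
  rw [e]
  congr 1
  refine intervalIntegral.integral_congr fun x _ => ?_
  show -deriv W x * HT (fun y => -deriv W y) x = _
  rw [HTd_neg]
  ring

/-- integrable pieces of the energy kernel -/
theorem E_pieces {W : ℝ → ℝ} {l K : ℝ} (h : OddE W l) (hK : Lip K W) :
    IntegrableOn (fun z : ℝ × ℝ => bF W z.1 * bR W z.2 * csk (z.1 - z.2)) Sq1 ∧
    IntegrableOn (fun z : ℝ × ℝ => bF W z.1 * bR W z.2 * csk (z.1 + z.2)) Sq1 ∧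
    IntegrableOn (fun z : ℝ × ℝ => bR W z.1 * bR W z.2 * csk (z.1 + z.2)) Sq1 ∧
    IntegrableOn (fun z : ℝ × ℝ => bF W z.1 * bF W z.2 * csk (z.1 + z.2)) Sq1 := by
  obtain ⟨k1, k2, k3, -⟩ := EKer_parts (OE_negC h) (neg_lip hK)
  obtain ⟨-, k2', -, -⟩ := EKer_parts (OE_negC (OE_sft h)) (neg_lip (sft_lip hK))
  rw [bF_neg, bR_neg] at k1 k3
  rw [bF_neg] at k2 k2'
  have q1 := (JKer_swap k1).1
  have q3 := (JKer_swap k3).1
  have q2 := Rpi_int k2'
  refine ⟨?_, ?_, k2, ?_⟩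
  · refine q1.congr (Filter.Eventually.of_forall fun z => ?_)
    show bR W z.2 * bF W z.1 * csk (z.1 - z.2) = _
    ring
  · refine q3.congr (Filter.Eventually.of_forall fun z => ?_)
    show bR W z.2 * bF W z.1 * csk (z.2 + z.1) = _
    rw [add_comm z.2 z.1]
    ring
  · have q4 := q2.neg
    refine q4.congr (Filter.Eventually.of_forall fun z => ?_)
    show -(bR (sft W) (π - z.1) * bR (sft W) (π - z.2) * csk (π - z.1 + (π - z.2))) = _
    rw [bR_sft h, bR_sft h, show π - z.1 + (π - z.2) = 2 * π - (z.1 + z.2) by ring, csk_refl,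
      sub_sub_cancel, sub_sub_cancel]
    ring

/-- the arc `(0,l)` -/
theorem EF_left {W : ℝ → ℝ} {l : ℝ} (h : OddE W l) (hs : ContDiff ℝ 2 W) :
    2 * ∫ x in (0:ℝ)..l, deriv W x * HT (deriv W) x =
      1 / (2 * π) * ((∫ z in Sq1, bR W z.1 * bR W z.2 * csk (z.1 + z.2)) -
        (∫ z in Sq1, bF W z.1 * bR W z.2 * csk (z.1 + z.2)) -
        ∫ z in Sq1, bF W z.1 * bR W z.2 * csk (z.1 - z.2)) := by
  obtain ⟨K, hK⟩ := lip_of_contDiff h.per (hs.of_le (by norm_num))
  obtain ⟨k1, k2, k3, -⟩ := EKer_parts (OE_negC h) (neg_lip hK)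
  have hk := EF_kernel (OE_negC h) hs.neg
  rw [EF_neg] at hk
  rw [hk]
  unfold EFk
  rw [bF_neg, bR_neg] at k1 k3
  rw [bF_neg] at k2
  rw [bF_neg, bR_neg]
  obtain ⟨j1, i1⟩ := JKer_swap k1
  obtain ⟨j3, i3⟩ := JKer_swap k3
  have e1 : ∫ z in Sq1, bR W z.1 * bR W z.2 * kEb z.1 z.2 =
      1 / (2 * π) * ∫ z in Sq1, bR W z.1 * bR W z.2 * csk (z.1 + z.2) := by
    rw [← integral_const_mul]
    refine integral_congr_ae (Filter.Eventually.of_forall fun z => ?_)
    show bR W z.1 * bR W z.2 * (1 / (2 * π) * csk (z.1 + z.2)) = _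
    ring
  have e2 : ∫ z in Sq1, bR W z.1 * bF W z.2 * kEn z.1 z.2 =
      -(1 / (2 * π)) * ((∫ z in Sq1, bR W z.1 * bF W z.2 * csk (z.1 + z.2)) +
        ∫ z in Sq1, bR W z.1 * bF W z.2 * csk (z.2 - z.1)) := by
    rw [← integral_add k3 k1, ← integral_const_mul]
    refine integral_congr_ae (Filter.Eventually.of_forall fun z => ?_)
    show bR W z.1 * bF W z.2 * (-(1 / (2 * π) * (csk (z.1 + z.2) + csk (z.2 - z.1)))) =
      -(1 / (2 * π)) * (bR W z.1 * bF W z.2 * csk (z.1 + z.2) +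
        bR W z.1 * bF W z.2 * csk (z.2 - z.1))
    ring
  have e3 : ∫ z in Sq1, bR W z.1 * bF W z.2 * csk (z.1 + z.2) =
      ∫ z in Sq1, bF W z.1 * bR W z.2 * csk (z.1 + z.2) := by
    rw [← i3]
    refine integral_congr_ae (Filter.Eventually.of_forall fun z => ?_)
    show bR W z.2 * bF W z.1 * csk (z.2 + z.1) = _
    rw [add_comm z.2 z.1]
    ring
  have e4 : ∫ z in Sq1, bR W z.1 * bF W z.2 * csk (z.2 - z.1) =
      ∫ z in Sq1, bF W z.1 * bR W z.2 * csk (z.1 - z.2) := by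
    rw [← i1]
    refine integral_congr_ae (Filter.Eventually.of_forall fun z => ?_)
    show bR W z.2 * bF W z.1 * csk (z.1 - z.2) = _
    ring
  rw [e1, e2, e3, e4]
  ring

/-- the arc `(l,π)` -/
theorem EF_right {W : ℝ → ℝ} {l : ℝ} (h : OddE W l) (hs : ContDiff ℝ 2 W) :
    2 * ∫ x in l..π, deriv W x * HT (deriv W) x =
      1 / (2 * π) * ((∫ z in Sq1, bF W z.1 * bF W z.2 * csk (z.1 + z.2)) -
        (∫ z in Sq1, bF W z.1 * bR W z.2 * csk (z.1 + z.2)) +
        ∫ z in Sq1, bF W z.1 * bR W z.2 * csk (z.1 - z.2)) := by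
  have h1 := EF_left (OE_sft h) (sft_contDiff hs)
  have c1 : ∀ x, deriv (sft W) (π - x) * HT (deriv (sft W)) (π - x) =
      -(deriv W x * HT (deriv W) x) := by
    intro x
    rw [deriv_sft', sft_apply, HT_sft, OE_derivRefl h, OE_HTderivRefl h]
    ring
  have e0 : (∫ x in (0:ℝ)..(π - l), deriv (sft W) x * HT (deriv (sft W)) x) =
      -∫ x in l..π, deriv W x * HT (deriv W) x := by
    have h1 := intervalIntegral.integral_comp_sub_left (a := l) (b := π)
      (fun x => deriv (sft W) x * HT (deriv (sft W)) x) π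
    rw [sub_self] at h1
    rw [← h1, ← intervalIntegral.integral_neg]
    exact intervalIntegral.integral_congr fun x _ => c1 x
  have e1 : ∫ z in Sq1, bR (sft W) z.1 * bR (sft W) z.2 * csk (z.1 + z.2) =
      -∫ z in Sq1, bF W z.1 * bF W z.2 * csk (z.1 + z.2) := by
    rw [← Rpi_integral, ← integral_neg]
    refine integral_congr_ae (Filter.Eventually.of_forall fun z => ?_)
    show bR (sft W) (π - z.1) * bR (sft W) (π - z.2) * csk (π - z.1 + (π - z.2)) = _
    rw [bR_sft h, bR_sft h, show π - z.1 + (π - z.2) = 2 * π - (z.1 + z.2) by ring, csk_refl,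
      sub_sub_cancel, sub_sub_cancel]
    ring
  obtain ⟨p1, p2, -, -⟩ := E_pieces h (lip_of_contDiff h.per (hs.of_le (by norm_num))).choose_spec
  have e2 : ∫ z in Sq1, bF (sft W) z.1 * bR (sft W) z.2 * csk (z.1 + z.2) =
      -∫ z in Sq1, bF W z.1 * bR W z.2 * csk (z.1 + z.2) := by
    rw [← (JKer_swap p2).2, ← Rpi_integral, ← integral_neg]
    refine integral_congr_ae (Filter.Eventually.of_forall fun z => ?_)
    show bF (sft W) (π - z.1) * bR (sft W) (π - z.2) * csk (π - z.1 + (π - z.2)) =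
      -(bF W z.2 * bR W z.1 * csk (z.2 + z.1))
    rw [bR_sft h, bF_sft h, show π - z.1 + (π - z.2) = 2 * π - (z.1 + z.2) by ring, csk_refl,
      sub_sub_cancel, sub_sub_cancel, add_comm z.2 z.1]
    ring
  have e3 : ∫ z in Sq1, bF (sft W) z.1 * bR (sft W) z.2 * csk (z.1 - z.2) =
      ∫ z in Sq1, bF W z.1 * bR W z.2 * csk (z.1 - z.2) := by
    rw [← (JKer_swap p1).2, ← Rpi_integral]
    refine integral_congr_ae (Filter.Eventually.of_forall fun z => ?_)
    show bF (sft W) (π - z.1) * bR (sft W) (π - z.2) * csk (π - z.1 - (π - z.2)) =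
      bF W z.2 * bR W z.1 * csk (z.2 - z.1)
    rw [bR_sft h, bF_sft h, show π - z.1 - (π - z.2) = z.2 - z.1 by ring,
      sub_sub_cancel, sub_sub_cancel]
    ring
  rw [e0, e1, e2, e3] at h1
  linarith

end Pool.Agent.H53.DE
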