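import Pool.Agent.H53.DE.Ker
import Pool.Agent.H12.DE.TKer

/-!
# DE: kernel forms of `EFE`, `BN`, `BP` (final statements)

`a = bF W` (supported in `(l,π)`), `b = bR W` (supported in `(0,l)`).
* `EFE_kernel : OddE W l → ContDiff ℝ 2 W → EFE W l = EFEk W`, `EFEk_int` (Lipschitz `W`, in `Ker.lean`);
* `BN_kernel`: Lipschitz `W` with `W = 0` near `0`;
* `BP_kernel`: Lipschitz `W` with `W = 0` near `π` (`BP W l = BN (sft W) (π - l)` is `BN_sft` in `Sym.lean`).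
-/

set_option autoImplicit false
open Real Set MeasureTheory Filter Topology

namespace Pool.Agent.H53.DE
open Pool.Agent.H45.FL Pool.Agent.H51.DG Pool.Agent.H45.DY Pool.Agent.H90.DC Pool.Agent.H90.DE
open Pool.Agent.H12.DE

theorem massNF {W : ℝ → ℝ} {l K : ℝ} (h : OddE W l) (hK : Lip K W) : MassNF W l := by
  obtain ⟨-, -, h3⟩ := MN_kernel h ⟨K, hK⟩
  unfold MassNF
  rw [h3]
  obtain ⟨j1, j2, j3, j4⟩ := ct_pieces h hK
  have g0 : IntegrableOn (fun z : ℝ × ℝ => bF W z.1 * bR W z.2 *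
      (ct (z.1 + z.2) + ct (z.1 - z.2))) Sq1 := by
    refine (j2.add j1).congr (Filter.Eventually.of_forall fun z => ?_)
    show bF W z.1 * bR W z.2 * ct (z.1 + z.2) + bF W z.1 * bR W z.2 * ct (z.1 - z.2) = _
    ring
  have e1 : ∫ z in Sq1, bR W z.1 * bR W z.2 * kM z.1 z.2 =
      1 / (2 * π) * ∫ z in Sq1, bR W z.1 * bR W z.2 * ct (z.1 + z.2) := by
    rw [← integral_const_mul]
    refine integral_congr_ae (Filter.Eventually.of_forall fun z => ?_)
    show bR W z.1 * bR W z.2 * (1 / (2 * π) * ct (z.1 + z.2)) = _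
    ring
  have e2 : ∫ z in Sq1, bF W z.1 * bR W z.2 * kMn z.1 z.2 =
      1 / (2 * π) * ∫ z in Sq1, bF W z.1 * bR W z.2 * (ct (z.1 + z.2) + ct (z.1 - z.2)) := by
    rw [← integral_const_mul]
    refine integral_congr_ae (Filter.Eventually.of_forall fun z => ?_)
    show bF W z.1 * bR W z.2 * (1 / (2 * π) * (ct (z.1 + z.2) + ct (z.1 - z.2))) = _
    ring
  have e3 : ∫ z in Sq1, bR W z.1 * bF W z.2 * (ct (z.1 + z.2) - ct (z.1 - z.2)) =
      ∫ z in Sq1, bF W z.1 * bR W z.2 * (ct (z.1 + z.2) + ct (z.1 - z.2)) := by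
    rw [← (JKer_swap g0).2]
    refine integral_congr_ae (Filter.Eventually.of_forall fun z => ?_)
    show _ = bF W z.2 * bR W z.1 * (ct (z.2 + z.1) + ct (z.2 - z.1))
    rw [ct_anti z.1 z.2, add_comm z.2 z.1]
    ring
  rw [e1, e2, e3]
  ring

/-- kernel form of the derivative of the energy -/
theorem EFE_kernel {W : ℝ → ℝ} {l : ℝ} (h : OddE W l) (hs : ContDiff ℝ 2 W) :
    EFE W l = EFEk W := by
  obtain ⟨K, hK⟩ := lip_of_contDiff h.per (hs.of_le (by norm_num))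
  exact EFE_kernel0 h hs (massNF h hK) (massNF (OE_sft h) (sft_lip hK))

/-- kernel form of the budget at `0` -/
theorem BN_kernel {W : ℝ → ℝ} {l K : ℝ} (h : OddE W l) (hK : Lip K W) {δ : ℝ} (hδ : 0 < δ)
    (hv : ∀ x, |x| ≤ δ → W x = 0) :
    IntegrableOn (fun z : ℝ × ℝ => bR W z.1 * bR W z.2 * kBb z.1 z.2) Sq1 ∧
    IntegrableOn (fun z : ℝ × ℝ => bR W z.1 * bF W z.2 * kBn z.1 z.2) Sq1 ∧
    BN W l = (∫ z in Sq1, bR W z.1 * bR W z.2 * kBb z.1 z.2) +
      ∫ z in Sq1, bR W z.1 * bF W z.2 * kBn z.1 z.2 :=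
  BN_kernel0 h hK hδ hv (massNF h hK)

/-- kernel form of the budget at `π` -/
theorem BP_kernel {W : ℝ → ℝ} {l K : ℝ} (h : OddE W l) (hK : Lip K W) {δ : ℝ} (hδ : 0 < δ)
    (hv : ∀ x, |x - π| ≤ δ → W x = 0) :
    IntegrableOn (fun z : ℝ × ℝ => bF W (π - z.1) * bF W (π - z.2) * kBb z.1 z.2) Sq1 ∧
    IntegrableOn (fun z : ℝ × ℝ => bF W (π - z.1) * bR W (π - z.2) * kBn z.1 z.2) Sq1 ∧
    BP W l = (∫ z in Sq1, bF W (π - z.1) * bF W (π - z.2) * kBb z.1 z.2) +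
      ∫ z in Sq1, bF W (π - z.1) * bR W (π - z.2) * kBn z.1 z.2 := by
  have h1 := BN_kernel (OE_sft h) (sft_lip hK) hδ (fun x hx => by
    rw [sft_apply]
    exact hv (x + π) (by rwa [add_sub_cancel_right]))
  have e1 : (bR (sft W)) = fun x => bF W (π - x) := funext (bR_sft h)
  have e2 : (bF (sft W)) = fun x => bR W (π - x) := funext (bF_sft h)
  rw [e1, e2, BN_sft h hK] at h1
  exact h1

end Pool.Agent.H53.DE
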