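import Pool.Agent.H90.DE.Defs
import Pool.Agent.H45.DY.HTd
import Pool.Agent.H51.DG.RF
import Pool.Agent.H51.DG.SA

/-!
# DE: the symmetry `W ↦ W(· + π)`, `l ↦ π - l`

`W(x + π) = -W(π - x)` for odd periodic `W`; the arcs `(0,l)` and `(l,π)` are exchanged.
-/

set_option autoImplicit false
open Real Set MeasureTheory Filter Topology

namespace Pool.Agent.H53.DE
open Pool.Agent.H45.FL Pool.Agent.H51.DG Pool.Agent.H45.DY Pool.Agent.H90.DC Pool.Agent.H90.DE

/-- the shifted function -/
noncomputable def sft (W : ℝ → ℝ) : ℝ → ℝ := fun x => W (x + π)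

theorem sft_apply (W : ℝ → ℝ) (x : ℝ) : sft W x = W (x + π) := rfl

/-- reflection in `π` of an odd periodic function -/
theorem OE_refl {W : ℝ → ℝ} {l : ℝ} (h : OddE W l) (x : ℝ) : W (2 * π - x) = -W x := by
  rw [← h.odd x, ← h.per (-x)]
  congr 1
  ring

theorem OE_refl_add {W : ℝ → ℝ} {l : ℝ} (h : OddE W l) (x : ℝ) : W (x + π) = -W (π - x) := by
  have := OE_refl h (π - x)
  rw [← this]
  congr 1
  ring

theorem OE_w0 {W : ℝ → ℝ} {l : ℝ} (h : OddE W l) : W 0 = 0 := by
  have := h.odd 0
  rw [neg_zero] at this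
  linarith

theorem OE_wpi {W : ℝ → ℝ} {l : ℝ} (h : OddE W l) : W π = 0 := by
  have := OE_refl h π
  rw [show 2 * π - π = π by ring] at this
  linarith

theorem OE_wl {W : ℝ → ℝ} {l : ℝ} (h : OddE W l) : W l = 0 :=
  le_antisymm (h.neg l ⟨h.l0.le, le_rfl⟩) (h.pos l ⟨le_rfl, h.l1.le⟩)

theorem OE_sft {W : ℝ → ℝ} {l : ℝ} (h : OddE W l) : OddE (sft W) (π - l) where
  per := fun x => by
    show W (x + 2 * π + π) = W (x + π)
    rw [← h.per (x + π)]
    congr 1
    ring
  odd := fun x => by
    show W (-x + π) = -W (x + π)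
    rw [OE_refl_add h x]
    rw [neg_neg]
    congr 1
    ring
  l0 := sub_pos.2 h.l1
  l1 := by linarith [h.l0]
  neg := fun x hx => by
    show W (x + π) ≤ 0
    rw [OE_refl_add h x]
    have := h.pos (π - x) ⟨by linarith [hx.2], by linarith [hx.1]⟩
    linarith
  pos := fun x hx => by
    show 0 ≤ W (x + π)
    rw [OE_refl_add h x]
    have := h.neg (π - x) ⟨by linarith [hx.2], by linarith [hx.1]⟩
    linarith

theorem sft_lip {W : ℝ → ℝ} {K : ℝ} (h : Lip K W) : Lip K (sft W) := by
  intro x y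
  have := h (x + π) (y + π)
  rwa [add_sub_add_right_eq_sub] at this

theorem sft_contDiff {W : ℝ → ℝ} {n : WithTop ℕ∞} (h : ContDiff ℝ n W) : ContDiff ℝ n (sft W) :=
  h.comp (contDiff_id.add contDiff_const)

theorem sft_sft {W : ℝ → ℝ} {l : ℝ} (h : OddE W l) : sft (sft W) = W := by
  funext x
  show W (x + π + π) = W x
  rw [← h.per x]
  congr 1
  ring

theorem HT_sft (W : ℝ → ℝ) (x : ℝ) : HT (sft W) x = HT W (x + π) := by
  have := HTd_shift W π x
  rw [add_comm x π, ← this]
  congr 1
  funext y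
  show W (y + π) = W (π + y)
  rw [add_comm]

theorem deriv_sft (W : ℝ → ℝ) (x : ℝ) : deriv (sft W) x = deriv W (x + π) :=
  deriv_comp_add_const W π x

theorem deriv_sft' (W : ℝ → ℝ) : deriv (sft W) = sft (deriv W) := by
  funext x
  exact deriv_sft W x

/-- `HT` of an odd function is even -/
theorem HT_neg_of_odd {W : ℝ → ℝ} (h : ∀ x, W (-x) = -W x) (x : ℝ) : HT W (-x) = HT W x := by
  have e : rf W = W := by
    funext y
    show -W (-y) = W y
    rw [h y, neg_neg]
  have := HT_rf W x
  rw [e] at this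
  exact this.symm

/-- `UU` of an odd function is odd -/
theorem UU_neg_of_odd {W : ℝ → ℝ} (h : ∀ x, W (-x) = -W x) (x : ℝ) : UU W (-x) = -UU W x := by
  have e : rf W = W := by
    funext y
    show -W (-y) = W y
    rw [h y, neg_neg]
  have := UU_rf W x
  rw [e] at this
  linarith

/-- `HT` of an even function is odd -/
theorem HT_neg_of_even {V : ℝ → ℝ} (h : ∀ x, V (-x) = V x) (x : ℝ) : HT V (-x) = -HT V x := by
  have e : rf V = fun y => -V y := by
    funext y
    show -V (-y) = -V y
    rw [h y]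
  have h1 := HT_rf V x
  rw [e, HTd_neg] at h1
  exact h1.symm

theorem deriv_even_of_odd {W : ℝ → ℝ} (h : ∀ x, W (-x) = -W x) (x : ℝ) :
    deriv W (-x) = deriv W x := by
  have e : (fun y => W (-y)) = fun y => -W y := by
    funext y
    exact h y
  have h1 := deriv_comp_neg W x
  rw [e] at h1
  have h2 : deriv (fun y => -W y) x = -deriv W x := deriv.fun_neg
  rw [h2] at h1
  linarith

theorem OE_HT_refl {W : ℝ → ℝ} {l : ℝ} (h : OddE W l) (x : ℝ) : HT W (π - x + π) = HT W x := by
  rw [← HT_neg_of_odd h.odd x, ← HT_per h.per (-x)]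
  congr 1
  ring

theorem OE_UU_refl {W : ℝ → ℝ} {l K : ℝ} (h : OddE W l) (hK : Lip K W) (x : ℝ) :
    UU W (π - x + π) = -UU W x := by
  rw [← UU_neg_of_odd h.odd x, ← UU_per h.per hK (-x)]
  congr 1
  ring

theorem OE_UU_pi {W : ℝ → ℝ} {l K : ℝ} (h : OddE W l) (hK : Lip K W) : UU W π = 0 := by
  have := OE_UU_refl h hK π
  rw [show π - π + π = π by ring] at this
  linarith

theorem OE_UU_sft {W : ℝ → ℝ} {l K : ℝ} (h : OddE W l) (hK : Lip K W) (x : ℝ) :
    UU (sft W) x = UU W (x + π) := by
  have hc : Continuous (HT W) := continuous_HT hK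
  have e : UU (sft W) x = ∫ y in (0:ℝ)..x, HT W (y + π) := by
    unfold UU
    exact intervalIntegral.integral_congr fun y _ => HT_sft W y
  have h0 := OE_UU_pi h hK
  have h2 : (∫ y in (0:ℝ)..π, HT W y) + ∫ y in π..(x + π), HT W y = ∫ y in (0:ℝ)..(x + π), HT W y :=
    intervalIntegral.integral_add_adjacent_intervals (hc.intervalIntegrable _ _)
      (hc.intervalIntegrable _ _)
  rw [e, intervalIntegral.integral_comp_add_right (fun y => HT W y), zero_add]
  unfold UU at h0 ⊢
  rw [h0, zero_add] at h2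
  exact h2

theorem OE_derivRefl {W : ℝ → ℝ} {l : ℝ} (h : OddE W l) (x : ℝ) :
    deriv W (π - x + π) = deriv W x := by
  have pV : Function.Periodic (deriv W) (2 * π) := by
    intro x
    have e : (fun y => W (y + 2 * π)) = W := by
      funext y
      exact h.per y
    have h1 := deriv_comp_add_const W (2 * π) x
    rw [e] at h1
    exact h1.symm
  rw [← deriv_even_of_odd h.odd x, ← pV (-x)]
  congr 1
  ring

theorem OE_HTderivRefl {W : ℝ → ℝ} {l : ℝ} (h : OddE W l) (x : ℝ) :
    HT (deriv W) (π - x + π) = -HT (deriv W) x := by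
  have pV : Function.Periodic (deriv W) (2 * π) := by
    intro x
    have e : (fun y => W (y + 2 * π)) = W := by
      funext y
      exact h.per y
    have h1 := deriv_comp_add_const W (2 * π) x
    rw [e] at h1
    exact h1.symm
  rw [← HT_neg_of_even (deriv_even_of_odd h.odd) x, ← HT_per pV (-x)]
  congr 1
  ring

theorem TF_sft {W : ℝ → ℝ} {l K : ℝ} (h : OddE W l) (hK : Lip K W) :
    TF (sft W) (π - l) = TF W l := by
  unfold TF
  have e1 : (∫ x in (0:ℝ)..(π - l), -sft W x * (2 * HT (sft W) x * Pc (π - l - x) -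
      (UU (sft W) x - UU (sft W) (π - l)) * dPh (π - l - x))) =
      ∫ x in l..π, W x * (2 * HT W x * Pc (x - l) + (UU W x - UU W l) * dPh (x - l)) := by
    have h1 := intervalIntegral.integral_comp_sub_left (a := l) (b := π)
      (fun x => -sft W x * (2 * HT (sft W) x * Pc (π - l - x) -
      (UU (sft W) x - UU (sft W) (π - l)) * dPh (π - l - x))) π
    rw [sub_self] at h1
    rw [← h1]
    refine intervalIntegral.integral_congr fun x _ => ?_
    show -W (π - x + π) * (2 * HT (sft W) (π - x) * Pc (π - l - (π - x)) -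
      (UU (sft W) (π - x) - UU (sft W) (π - l)) * dPh (π - l - (π - x))) = _
    rw [HT_sft, OE_UU_sft h hK, OE_UU_sft h hK, OE_HT_refl h, OE_UU_refl h hK, OE_UU_refl h hK,
      show π - l - (π - x) = x - l by ring, show π - x + π = 2 * π - x by ring, OE_refl h]
    ring
  have e2 : (∫ x in (π - l)..π, sft W x * (2 * HT (sft W) x * Pc (x - (π - l)) +
      (UU (sft W) x - UU (sft W) (π - l)) * dPh (x - (π - l)))) =
      ∫ x in (0:ℝ)..l, -W x * (2 * HT W x * Pc (l - x) - (UU W x - UU W l) * dPh (l - x)) := by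
    have h1 := intervalIntegral.integral_comp_sub_left (a := 0) (b := l)
      (fun x => sft W x * (2 * HT (sft W) x * Pc (x - (π - l)) +
      (UU (sft W) x - UU (sft W) (π - l)) * dPh (x - (π - l)))) π
    rw [sub_zero] at h1
    rw [← h1]
    refine intervalIntegral.integral_congr fun x _ => ?_
    show W (π - x + π) * (2 * HT (sft W) (π - x) * Pc (π - x - (π - l)) +
      (UU (sft W) (π - x) - UU (sft W) (π - l)) * dPh (π - x - (π - l))) = _
    rw [HT_sft, OE_UU_sft h hK, OE_UU_sft h hK, OE_HT_refl h, OE_UU_refl h hK, OE_UU_refl h hK,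
      show π - x - (π - l) = l - x by ring, show π - x + π = 2 * π - x by ring, OE_refl h]
    ring
  rw [e1, e2, add_comm]

theorem EFE_sft {W : ℝ → ℝ} {l : ℝ} (h : OddE W l) : EFE (sft W) (π - l) = EFE W l := by
  unfold EFE
  rw [deriv_sft']
  have c1 : ∀ x, sft (deriv W) (π - x) * HT (sft (deriv W)) (π - x) =
      -(deriv W x * HT (deriv W) x) := by
    intro x
    rw [sft_apply, HT_sft, OE_derivRefl h, OE_HTderivRefl h]
    ring
  have c2 : ∀ x, sft W (π - x) * HT (sft W) (π - x) = -(W x * HT W x) := by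
    intro x
    rw [sft_apply, HT_sft, OE_HT_refl h, show π - x + π = 2 * π - x by ring, OE_refl h]
    ring
  have g : ∀ (f g : ℝ → ℝ), (∀ x, f (π - x) = -g x) →
      (∫ x in (π - l)..π, f x) = -∫ x in (0:ℝ)..l, g x := by
    intro f g hfg
    have h1 := intervalIntegral.integral_comp_sub_left (a := 0) (b := l) f π
    rw [sub_zero] at h1
    rw [← h1, ← intervalIntegral.integral_neg]
    exact intervalIntegral.integral_congr fun x _ => hfg x
  have g' : ∀ (f g : ℝ → ℝ), (∀ x, f (π - x) = -g x) →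
      (∫ x in (0:ℝ)..(π - l), f x) = -∫ x in l..π, g x := by
    intro f g hfg
    have h1 := intervalIntegral.integral_comp_sub_left (a := l) (b := π) f π
    rw [sub_self] at h1
    rw [← h1, ← intervalIntegral.integral_neg]
    exact intervalIntegral.integral_congr fun x _ => hfg x
  rw [g _ _ c1, g' _ _ c1, g _ _ c2, g' _ _ c2]
  ring

theorem BN_sft {W : ℝ → ℝ} {l K : ℝ} (h : OddE W l) (hK : Lip K W) :
    BN (sft W) (π - l) = BP W l := by
  unfold BN BP
  have h1 := intervalIntegral.integral_comp_sub_left (a := l) (b := π)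
    (fun x => sft W x * (2 * HT (sft W) x * Pk x + UU (sft W) x * dPh x)) π
  rw [sub_self] at h1
  rw [← h1]
  refine intervalIntegral.integral_congr fun x _ => ?_
  show W (π - x + π) * (2 * HT (sft W) (π - x) * Pk (π - x) + UU (sft W) (π - x) * dPh (π - x)) = _
  rw [HT_sft, OE_UU_sft h hK, OE_HT_refl h, OE_UU_refl h hK, show π - x + π = 2 * π - x by ring, OE_refl h]
  ring

theorem BP_sft {W : ℝ → ℝ} {l K : ℝ} (h : OddE W l) (hK : Lip K W) :
    BP (sft W) (π - l) = BN W l := by
  have h1 := BN_sft (OE_sft h) (sft_lip hK)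
  rw [sft_sft h, show π - (π - l) = l by ring] at h1
  exact h1.symm

/-- a periodic `C^1` function is Lipschitz -/
theorem lip_of_contDiff {W : ℝ → ℝ} (hp : Function.Periodic W (2 * π)) (hs : ContDiff ℝ 1 W) :
    ∃ K, Lip K W := by
  have hd : Differentiable ℝ W := hs.differentiable (by norm_num)
  refine HTd_lip (f := W) (f' := deriv W) (fun x => (hd x).hasDerivAt)
    (hs.continuous_deriv (le_refl _)) ?_
  intro x
  have e : (fun y => W (y + 2 * π)) = W := by
    funext y
    exact hp y
  have h1 := deriv_comp_add_const W (2 * π) x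
  rw [e] at h1
  exact h1.symm

end Pool.Agent.H53.DE
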